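import Pool.Agent.H68.Amp.UStmt

set_option autoImplicit false

/-!
# The Jung property for ultrapower embeddings

The definitions used in the statement on `MP_0c927e_an`.  Tracial von Neumann algebras and II₁
factors (`H80VN.Stmt`) are defined in `Pool.Agent.H80.VNStmt`, ultrapowers (`UPow`) in
`Pool.Agent.H68.Amp.UStmt`.
-/

universe u

open Filter Topology H80VN Pool.Agent.H68.Amp

namespace Pool.Agent.H28.JP

section

variable {M : Type u} [CStarAlgebra M] {τ : M →ₗ[ℂ] ℂ} (h : Stmt.IsTracialVN τ) (ω : Filter ℕ)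

/-- The diagonal embedding of `M` into `M^ω`: it maps `x` to the class of the constant sequence. -/
noncomputable def diag : M →⋆ₐ[ℂ] UPow h ω where
  toFun x := UPow.mk h ω ⟨fun _ => x, ‖x‖, fun _ => le_rfl⟩
  map_one' := map_one (UPow.mk h ω)
  map_mul' x y := map_mul (UPow.mk h ω) ⟨fun _ => x, ‖x‖, fun _ => le_rfl⟩
    ⟨fun _ => y, ‖y‖, fun _ => le_rfl⟩
  map_zero' := map_zero (UPow.mk h ω)
  map_add' x y := map_add (UPow.mk h ω) ⟨fun _ => x, ‖x‖, fun _ => le_rfl⟩
    ⟨fun _ => y, ‖y‖, fun _ => le_rfl⟩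
  commutes' _ := rfl
  map_star' x := (UPow.star_mk h ω ⟨fun _ => x, ‖x‖, fun _ => le_rfl⟩).symm

/-- The unital ⋆-homomorphism `π : M → M^ω` is trace preserving: if `π x` is the class of the bounded
sequence `s`, then `lim_ω τ (s_k) = τ x`. -/
def TracePres (π : M →⋆ₐ[ℂ] UPow h ω) : Prop :=
  ∀ (x : M) (s : LInf M), UPow.mk h ω s = π x → Tendsto (fun k => τ (s.seq k)) ω (𝓝 (τ x))

/-- The Jung property for `M^ω`: any two trace preserving unital ⋆-homomorphisms `M → M^ω` are
conjugate by a unitary of `M^ω`. -/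
def JungProperty : Prop :=
  ∀ π ρ : M →⋆ₐ[ℂ] UPow h ω, TracePres h ω π → TracePres h ω ρ →
    ∃ u ∈ unitary (UPow h ω), ∀ x, ρ x = u * π x * star u

/-- `a` lies in the relative commutant `M' ∩ M^ω`. -/
def InComm (a : UPow h ω) : Prop := ∀ x : M, a * diag h ω x = diag h ω x * a

/-- The center of the relative commutant `M' ∩ M^ω` contains no projection except `0` and `1`. -/
def CommIsFactor : Prop :=
  ∀ z : UPow h ω, star z = z → z * z = z → InComm h ω z →
    (∀ a, InComm h ω a → z * a = a * z) → z = 0 ∨ z = 1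

/-- There is `e ∈ M' ∩ M^ω` with `e² = 0` and `e⋆ e + e e⋆ = 1`. -/
def CommHasMatrixUnit : Prop :=
  ∃ e : UPow h ω, InComm h ω e ∧ e * e = 0 ∧ star e * e + e * star e = 1

/-- Every unital ⋆-homomorphism `M → M^ω` has trivial relative commutant. -/
def AllIrreducible : Prop :=
  ∀ (π : M →⋆ₐ[ℂ] UPow h ω) (a : UPow h ω), (∀ x, a * π x = π x * a) →
    ∃ c : ℂ, a = c • (1 : UPow h ω)

end

/-- Every nonzero (not necessarily unital) ⋆-homomorphism `M → M` is `x ↦ w x w⋆` with a unitary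
`w ∈ M`. -/
def AllInner (M : Type u) [CStarAlgebra M] : Prop :=
  ∀ θ : M →⋆ₙₐ[ℂ] M, θ ≠ 0 → ∃ w ∈ unitary M, ∀ x, θ x = w * x * star w

end Pool.Agent.H28.JP
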