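import Pool.Agent.H80.VNGamma

set_option autoImplicit false

/-!
# JP: lifting projections
-/

universe u

open Filter Topology H80VN

namespace Pool.Agent.H28.JP

variable {M : Type u} [CStarAlgebra M] [TracialVN M]

/-- An almost idempotent self-adjoint element is close to a projection. -/
theorem exists_near_proj {b : M} (hb : star b = b) : ∃ E, Proj E ∧ n2 (E - b) ≤ 4 * n2 (b * b - b) := by
  obtain ⟨E, hE⟩ := exists_spec b (1 / 2)
  have hφ : Continuous fun t : ℝ => (max t (1 / 2))⁻¹ :=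
    (continuous_id.max continuous_const).inv₀ fun t => by
      have : (1 / 2 : ℝ) ≤ max t (1 / 2) := le_max_right _ _
      show max t (1 / 2) ≠ 0
      intro h
      linarith
  have hψ : Continuous fun t : ℝ => -(1 - min t (1 / 2))⁻¹ :=
    ((continuous_const.sub (continuous_id.min continuous_const)).inv₀ fun t => by
      have : min t (1 / 2) ≤ (1 / 2 : ℝ) := min_le_right _ _
      show 1 - min t (1 / 2) ≠ 0
      intro h
      linarith).neg
  have hw : Continuous fun t : ℝ => t * t - t := by fun_prop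
  have hid : Continuous fun t : ℝ => t := continuous_id
  have hcw : cfc (fun t : ℝ => t * t - t) b = b * b - b := by
    rw [fc_sub (f := fun t : ℝ => t * t) (hid.mul hid) hid, fc_mul hid hid, fc_id hb]
  have hc1 : cfc (fun t : ℝ => t - 1) b = b - 1 := by
    rw [fc_sub hid continuous_const, fc_id hb, fc_const hb, one_smul]
  have hφn : ‖cfc (fun t : ℝ => (max t (1 / 2))⁻¹) b‖ ≤ 2 := by
    refine fc_norm_le (by norm_num) (fun t => ?_) b
    have h1 : (1 / 2 : ℝ) ≤ max t (1 / 2) := le_max_right _ _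
    rw [abs_of_nonneg (inv_nonneg.2 (by linarith))]
    calc (max t (1 / 2))⁻¹ ≤ (1 / 2 : ℝ)⁻¹ := inv_anti₀ (by norm_num) h1
      _ = 2 := by norm_num
  have hψn : ‖cfc (fun t : ℝ => -(1 - min t (1 / 2))⁻¹) b‖ ≤ 2 := by
    refine fc_norm_le (by norm_num) (fun t => ?_) b
    have h1 : min t (1 / 2) ≤ (1 / 2 : ℝ) := min_le_right _ _
    rw [abs_neg, abs_of_nonneg (inv_nonneg.2 (by linarith))]
    calc (1 - min t (1 / 2))⁻¹ ≤ (1 / 2 : ℝ)⁻¹ := inv_anti₀ (by norm_num) (by linarith)
      _ = 2 := by norm_num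
  have h1 : (b - 1) * E = cfc (fun t : ℝ => (max t (1 / 2))⁻¹) b * (b * b - b) * E := by
    rw [← hcw, ← fc_mul hφ hw, ← hc1]
    refine hE.ge (hid.sub continuous_const) (hφ.mul hw) fun t ht => ?_
    rw [max_eq_left ht]
    have ht0 : t ≠ 0 := by
      intro h
      rw [h] at ht
      norm_num at ht
    field_simp
  have h2 : b * (1 - E) = cfc (fun t : ℝ => -(1 - min t (1 / 2))⁻¹) b * (b * b - b) * (1 - E) := by
    rw [← hcw, ← fc_mul hψ hw]
    have h3 := hE.le (f := fun t : ℝ => t)
      (g := fun t : ℝ => -(1 - min t (1 / 2))⁻¹ * (t * t - t)) hid (hψ.mul hw) (fun t ht => by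
        rw [min_eq_left ht]
        have ht0 : 1 - t ≠ 0 := by
          intro h
          linarith
        field_simp
        ring)
    rwa [fc_id hb] at h3
  refine ⟨E, hE.proj, ?_⟩
  have h3 : E - b = -((b - 1) * E + b * (1 - E)) := by noncomm_ring
  rw [h3, n2_neg, h1, h2]
  refine (n2_add_le _ _).trans ?_
  have h4 : n2 (cfc (fun t : ℝ => (max t (1 / 2))⁻¹) b * (b * b - b) * E) ≤
      2 * n2 (b * b - b) := by
    refine (n2_mul_le_of_norm_le_one_right _ hE.proj.norm_le).trans ?_
    refine (n2_mul_le_left _ _).trans ?_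
    exact mul_le_mul_of_nonneg_right hφn (n2_nonneg _)
  have h5 : n2 (cfc (fun t : ℝ => -(1 - min t (1 / 2))⁻¹) b * (b * b - b) * (1 - E)) ≤
      2 * n2 (b * b - b) := by
    refine (n2_mul_le_of_norm_le_one_right _ hE.proj.one_sub.norm_le).trans ?_
    refine (n2_mul_le_left _ _).trans ?_
    exact mul_le_mul_of_nonneg_right hψn (n2_nonneg _)
  linarith

/-- A projection of given trace near a given one. -/
theorem exists_adjust (hM : IsFactor M) (hinf : ¬ FiniteDimensional ℂ M) {E : M} (hE : Proj E)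
    {s : ℝ} (hs0 : 0 ≤ s) (hs1 : s ≤ 1) :
    ∃ p, Proj p ∧ rt p = s ∧ n2 (p - E) ^ 2 = |rt E - s| := by
  rcases le_total s (rt E) with h | h
  · obtain ⟨p, hp, hpE, hps⟩ := exists_darboux hM hinf hE hs0 h
    refine ⟨p, hp, hps, ?_⟩
    rw [n2_sub_comm, (hp.sub hE hpE).n2_sq, rt_sub, hps, abs_of_nonneg (by linarith)]
  · obtain ⟨p, hp, hpE, hps⟩ := exists_darboux hM hinf hE.one_sub (t := 1 - s) (by linarith)
      (by rw [rt_sub, rt_one]; linarith)
    refine ⟨1 - p, hp.one_sub, by rw [rt_sub, rt_one, hps]; ring, ?_⟩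
    have h1 : 1 - p - E = 1 - E - p := by abel
    rw [h1, (hp.sub hE.one_sub hpE).n2_sq, rt_sub, rt_sub, rt_one, hps,
      abs_of_nonpos (by linarith)]
    ring

theorem exists_lift_proj (hM : IsFactor M) (hinf : ¬ FiniteDimensional ℂ M) {ω : Filter ℕ}
    [ω.NeBot] {a : ℕ → M} {C : ℝ} (hC : ∀ k, ‖a k‖ ≤ C)
    (h1 : Tendsto (fun k => n2 (star (a k) - a k)) ω (𝓝 0))
    (h2 : Tendsto (fun k => n2 (a k * a k - a k)) ω (𝓝 0)) {s : ℝ}
    (hs : Tendsto (fun k => rt (a k)) ω (𝓝 s)) :
    ∃ p : ℕ → M, (∀ k, Proj (p k) ∧ rt (p k) = s) ∧ Tendsto (fun k => n2 (p k - a k)) ω (𝓝 0) := by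
  have hC0 : 0 ≤ C := (norm_nonneg _).trans (hC 0)
  -- symmetrisation
  set b : ℕ → M := fun k => (1 / 2 : ℝ) • (a k + star (a k)) with hb
  have hbs : ∀ k, star (b k) = b k := by
    intro k
    rw [hb]
    simp only [star_smul, star_add, star_star, star_trivial]
    rw [add_comm]
  have hbc : ∀ k, ‖b k‖ ≤ C := by
    intro k
    rw [hb]
    simp only [norm_smul]
    rw [Real.norm_eq_abs, abs_of_pos (by norm_num : (0 : ℝ) < 1 / 2)]
    have e1 := norm_add_le (a k) (star (a k))
    rw [norm_star] at e1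
    have e2 := hC k
    linarith
  have hba : ∀ k, n2 (b k - a k) ≤ n2 (star (a k) - a k) := by
    intro k
    have e1 : b k - a k = (((1 / 2 : ℝ) : ℂ)) • (star (a k) - a k) := by
      rw [hb]
      simp only
      rw [Complex.coe_smul, smul_add, smul_sub]
      have e2 : a k = (1 / 2 : ℝ) • a k + (1 / 2 : ℝ) • a k := by
        rw [← add_smul]; norm_num
      nth_rw 3 [e2]
      abel
    rw [e1, n2_smul, Complex.norm_real, Real.norm_eq_abs, abs_of_pos (by norm_num : (0 : ℝ) < 1 / 2)]
    have := n2_nonneg (star (a k) - a k)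
    linarith
  have hbb : ∀ k, n2 (b k * b k - b k) ≤ n2 (a k * a k - a k) +
      (2 * C + 1) * n2 (star (a k) - a k) := by
    intro k
    have e1 : b k * b k - b k = (a k * a k - a k) + (b k * (b k - a k) + (b k - a k) * a k) -
        (b k - a k) := by noncomm_ring
    rw [e1]
    refine (n2_sub_le _ _).trans ?_
    have e2 := n2_add_le (a k * a k - a k) (b k * (b k - a k) + (b k - a k) * a k)
    have e3 := n2_add_le (b k * (b k - a k)) ((b k - a k) * a k)
    have e4 : n2 (b k * (b k - a k)) ≤ C * n2 (star (a k) - a k) :=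
      (n2_mul_le_left _ _).trans (mul_le_mul (hbc k) (hba k) (n2_nonneg _) hC0)
    have e5 : n2 ((b k - a k) * a k) ≤ n2 (star (a k) - a k) * C :=
      (n2_mul_le_right _ _).trans (mul_le_mul (hba k) (hC k) (norm_nonneg _) (n2_nonneg _))
    have e6 := hba k
    linarith
  choose E hE hEb using fun k => exists_near_proj (hbs k)
  have hEa : Tendsto (fun k => n2 (E k - a k)) ω (𝓝 0) := by
    have h3 : Tendsto (fun k => 4 * (n2 (a k * a k - a k) +
        (2 * C + 1) * n2 (star (a k) - a k)) + n2 (star (a k) - a k)) ω (𝓝 0) := by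
      have h4 := ((h2.add (h1.const_mul (2 * C + 1))).const_mul 4).add h1
      simpa using h4
    refine squeeze_zero (fun k => n2_nonneg _) (fun k => ?_) h3
    have e1 : E k - a k = (E k - b k) + (b k - a k) := by abel
    rw [e1]
    refine (n2_add_le _ _).trans ?_
    have e2 := hEb k
    have e3 := hbb k
    have e4 := hba k
    linarith
  have hEs : Tendsto (fun k => rt (E k)) ω (𝓝 s) := by
    have h3 : Tendsto (fun k => rt (E k - a k)) ω (𝓝 0) := by
      rw [tendsto_zero_iff_norm_tendsto_zero]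
      refine squeeze_zero (fun k => norm_nonneg _) (fun k => ?_) hEa
      rw [Real.norm_eq_abs]
      exact abs_rt_le' _
    have h4 := h3.add hs
    rw [zero_add] at h4
    refine h4.congr fun k => ?_
    rw [rt_sub]
    ring
  have hs0 : 0 ≤ s := ge_of_tendsto hEs (Eventually.of_forall fun k => (hE k).rt_nonneg)
  have hs1 : s ≤ 1 := le_of_tendsto hEs (Eventually.of_forall fun k => (hE k).rt_le_one)
  choose p hp hps hpE using fun k => exists_adjust hM hinf (hE k) hs0 hs1
  refine ⟨p, fun k => ⟨hp k, hps k⟩, ?_⟩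
  have hpE' : Tendsto (fun k => n2 (p k - E k)) ω (𝓝 0) := by
    have h3 : Tendsto (fun k => √|rt (E k) - s|) ω (𝓝 0) := by
      have h4 := ((hEs.sub_const s).abs).sqrt
      simpa using h4
    refine h3.congr fun k => ?_
    rw [← hpE k, Real.sqrt_sq (n2_nonneg _)]
  refine squeeze_zero (fun k => n2_nonneg _) (fun k => ?_)
    (by simpa using hpE'.add hEa : Tendsto (fun k => n2 (p k - E k) + n2 (E k - a k)) ω (𝓝 0))
  have e1 : p k - a k = (p k - E k) + (E k - a k) := by abel
  rw [e1]
  exact n2_add_le _ _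

end Pool.Agent.H28.JP
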