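import Pool.Agent.H80.VNGamma

set_option autoImplicit false

/-!
# JP: reindexing a central sequence of projections
-/

universe u

open Filter Topology H80VN

namespace Pool.Agent.H28.JP

variable {M : Type u} [CStarAlgebra M] [TracialVN M]

theorem exists_reindex (hM : IsFactor M)
    (hsep : ∃ D : Set M, D.Countable ∧ ∀ (x : M) (ε : ℝ), 0 < ε → ∃ d ∈ D, n2 (x - d) < ε)
    {ω : Filter ℕ} [ω.NeBot] {p : ℕ → M} (hp : ∀ k, Proj (p k)) {s : ℝ} (hs : ∀ k, rt (p k) = s)
    (hc : ∀ x, Tendsto (fun k => n2 (p k * x - x * p k)) ω (𝓝 0)) :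
    ∃ k : ℕ → ℕ, (∀ x, Tendsto (fun n => n2 (p (k n) * x - x * p (k n))) atTop (𝓝 0)) ∧
      Tendsto (fun n => rt (p n * p (k n))) atTop (𝓝 (s * s)) := by
  classical
  obtain ⟨D, hD, hdense⟩ := hsep
  have hDne : D.Nonempty := by
    obtain ⟨d, hd, _⟩ := hdense 0 1 one_pos
    exact ⟨d, hd⟩
  obtain ⟨d, hd⟩ := hD.exists_eq_range hDne
  have hex : ∀ n : ℕ, ∃ k : ℕ, (∀ f ∈ (Finset.range n).image d,
      n2 (p k * f - f * p k) ≤ 1 / ((n : ℝ) + 1)) ∧
      |rt (p n * p k) - s * s| ≤ 1 / ((n : ℝ) + 1) := by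
    intro n
    have hn : (0 : ℝ) < 1 / ((n : ℝ) + 1) := by positivity
    obtain ⟨G, δ, _, hδ, hind⟩ := independence hM (hp n).star_eq hn
    have h1 : ∀ᶠ k in ω, ∀ f ∈ (Finset.range n).image d,
        n2 (p k * f - f * p k) ≤ 1 / ((n : ℝ) + 1) :=
      (Finset.eventually_all _).2 fun f _ =>
        ((hc f).eventually (gt_mem_nhds hn)).mono fun k hk => le_of_lt hk
    have h2 : ∀ᶠ k in ω, ∀ u ∈ G, n2 (p k * u - u * p k) ≤ δ :=
      (Finset.eventually_all _).2 fun f _ =>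
        ((hc f).eventually (gt_mem_nhds hδ)).mono fun k hk => le_of_lt hk
    obtain ⟨k, hk1, hk2⟩ := (h1.and h2).exists
    refine ⟨k, hk1, ?_⟩
    have h3 := hind (p k) (hp k).n2_le_one hk2
    rwa [hs, hs] at h3
  choose k hk1 hk2 using hex
  refine ⟨k, fun x => ?_, ?_⟩
  · have hd0 : ∀ j, Tendsto (fun n => n2 (p (k n) * d j - d j * p (k n))) atTop (𝓝 0) := by
      intro j
      refine squeeze_zero' (Eventually.of_forall fun n => n2_nonneg _) ?_
        tendsto_one_div_add_atTop_nhds_zero_nat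
      filter_upwards [eventually_gt_atTop j] with n hn
      exact hk1 n (d j) (Finset.mem_image_of_mem _ (Finset.mem_range.2 hn))
    rw [Metric.tendsto_atTop]
    intro ε hε
    obtain ⟨e, he, hxe⟩ := hdense x (ε / 3) (by positivity)
    rw [hd] at he
    obtain ⟨j, rfl⟩ := he
    obtain ⟨N, hN⟩ := Metric.tendsto_atTop.1 (hd0 j) (ε / 3) (by positivity)
    refine ⟨N, fun n hn => ?_⟩
    have h1 := hN n hn
    rw [Real.dist_eq, sub_zero, abs_of_nonneg (n2_nonneg _)] at h1 ⊢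
    have h2 : p (k n) * x - x * p (k n) = (p (k n) * d j - d j * p (k n)) +
        (p (k n) * (x - d j) - (x - d j) * p (k n)) := by noncomm_ring
    rw [h2]
    have h3 := n2_add_le (p (k n) * d j - d j * p (k n))
      (p (k n) * (x - d j) - (x - d j) * p (k n))
    have h4 := n2_sub_le (p (k n) * (x - d j)) ((x - d j) * p (k n))
    have hr1 := (hp (k n)).norm_le
    have h5 : n2 ((x - d j) * p (k n)) ≤ n2 (x - d j) := n2_mul_le_of_norm_le_one_right _ hr1
    have h6 : n2 (p (k n) * (x - d j)) ≤ n2 (x - d j) := n2_mul_le_of_norm_le_one_left hr1 _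
    linarith
  · rw [tendsto_iff_dist_tendsto_zero]
    refine squeeze_zero (fun n => dist_nonneg) (fun n => ?_)
      tendsto_one_div_add_atTop_nhds_zero_nat
    rw [Real.dist_eq]
    exact hk2 n

end Pool.Agent.H28.JP
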