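import Pool.Agent.H28.JP.Main
import Pool.Agent.H28.JP.Lift
import Pool.Agent.H28.JP.Reindex

set_option autoImplicit false

/-!
# JP: the relative commutant is a factor
-/

universe u v

open Filter Topology H80VN Pool.Agent.H68.Amp

namespace Pool.Agent.H28.JP

section alg

variable {M : Type u} [CStarAlgebra M] {Q : Type v} [Ring Q] [StarRing Q] [Algebra ℂ Q]

/-- The embedding `x ↦ d x q + V (d x) V⋆`. -/
noncomputable def twist2 (d : M →⋆ₐ[ℂ] Q) (p q V : Q) (hps : star p = p) (hq : q * q = q)
    (hqs : star q = q) (h1 : star V * V = 1 - p) (h2 : V * star V = 1 - q) (hqV : q * V = 0)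
    (hVp : V * p = 0) (hcp : ∀ x, p * d x = d x * p) (hcq : ∀ x, q * d x = d x * q) :
    M →⋆ₐ[ℂ] Q where
  toFun x := d x * q + V * d x * star V
  map_one' := by
    rw [map_one, one_mul, mul_one, h2]
    abel
  map_mul' x y := by
    have hqV' : star V * q = 0 := by
      have := congrArg star hqV
      rwa [star_mul, hqs, star_zero] at this
    have hVp' : p * star V = 0 := by
      have := congrArg star hVp
      rwa [star_mul, hps, star_zero] at this
    have e1 : d x * q * (d y * q) = d (x * y) * q := by
      calc d x * q * (d y * q) = d x * (q * d y) * q := by simp only [mul_assoc]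
        _ = d x * d y * (q * q) := by rw [hcq]; simp only [mul_assoc]
        _ = d (x * y) * q := by rw [hq, map_mul]
    have e2 : d x * q * (V * d y * star V) = 0 := by
      calc d x * q * (V * d y * star V) = d x * (q * V) * d y * star V := by simp only [mul_assoc]
        _ = 0 := by rw [hqV, mul_zero, zero_mul, zero_mul]
    have e3 : V * d x * star V * (d y * q) = 0 := by
      calc V * d x * star V * (d y * q) = V * d x * star V * (q * d y) := by rw [hcq]
        _ = V * d x * (star V * q) * d y := by simp only [mul_assoc]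
        _ = 0 := by rw [hqV', mul_zero, zero_mul]
    have e4 : V * d x * star V * (V * d y * star V) = V * d (x * y) * star V := by
      calc V * d x * star V * (V * d y * star V) = V * d x * (star V * V) * d y * star V := by
            simp only [mul_assoc]
        _ = V * d x * d y * star V - V * d x * (p * d y) * star V := by
            rw [h1]; noncomm_ring
        _ = V * d x * d y * star V - V * d x * d y * (p * star V) := by
            rw [hcp]; simp only [mul_assoc]
        _ = V * d (x * y) * star V := by
            rw [hVp', mul_zero, sub_zero, map_mul]; simp only [mul_assoc]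
    rw [mul_add, add_mul, add_mul, e1, e2, e3, e4, add_zero, zero_add]
  map_zero' := by
    rw [map_zero, zero_mul, mul_zero, zero_mul, add_zero]
  map_add' x y := by
    rw [map_add, add_mul, mul_add, add_mul]
    abel
  commutes' c := by
    rw [AlgHomClass.commutes, ← Algebra.commutes c V, mul_assoc, h2, ← mul_add]
    have : q + (1 - q) = 1 := by abel
    rw [this, mul_one]
  map_star' x := by
    rw [star_add, star_mul, hqs, ← map_star, hcq, star_mul, star_mul, star_star, ← map_star,
      ← mul_assoc]

theorem twist2_apply (d : M →⋆ₐ[ℂ] Q) (p q V : Q) (hps : star p = p) (hq : q * q = q)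
    (hqs : star q = q) (h1 : star V * V = 1 - p) (h2 : V * star V = 1 - q) (hqV : q * V = 0)
    (hVp : V * p = 0) (hcp : ∀ x, p * d x = d x * p) (hcq : ∀ x, q * d x = d x * q) (x : M) :
    twist2 d p q V hps hq hqs h1 h2 hqV hVp hcp hcq x = d x * q + V * d x * star V := rfl

/-- The algebra of the argument. -/
theorem center_alg (d : M →⋆ₐ[ℂ] Q) (z q V u : Q) (t : Q →ₗ[ℂ] ℂ)
    (ht : ∀ a b, t (a * b) = t (b * a)) (hf : ∀ a, t (star a * a) = 0 → a = 0)
    (hz : z * z = z) (hzs : star z = z) (hq : q * q = q) (hqs : star q = q)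
    (h1 : star V * V = 1 - z) (h2 : V * star V = 1 - q) (hqV : q * V = 0)
    (hVz : V * z = 0) (hcz : ∀ x, z * d x = d x * z)
    (hcen : ∀ a, (∀ x, a * d x = d x * a) → z * a = a * z)
    (hu : u ∈ unitary Q) (hux : ∀ x, d x * q + V * d x * star V = u * d x * star u) :
    z * q = q := by
  have hu1 : star u * u = 1 := Unitary.star_mul_self_of_mem hu
  have hu2 : u * star u = 1 := Unitary.mul_star_self_of_mem hu
  have hqV' : star V * q = 0 := by
    have := congrArg star hqV
    rwa [star_mul, hqs, star_zero] at this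
  have hVx : ∀ x, V * d x = (u * d x * star u) * V := by
    intro x
    rw [← hux]
    calc V * d x = V * d x - (V * z) * d x := by rw [hVz, zero_mul, sub_zero]
      _ = V * d x - V * d x * z := by rw [mul_assoc V z, hcz, ← mul_assoc]
      _ = V * d x * (1 - z) := by rw [mul_sub, mul_one]
      _ = d x * (q * V) + V * d x * (star V * V) := by rw [hqV, mul_zero, zero_add, h1]
      _ = (d x * q + V * d x * star V) * V := by rw [add_mul]; simp only [mul_assoc]
  have hac : ∀ x, star u * V * d x = d x * (star u * V) := by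
    intro x
    calc star u * V * d x = star u * ((u * d x * star u) * V) := by rw [mul_assoc, hVx]
      _ = (star u * u) * d x * (star u * V) := by simp only [mul_assoc]
      _ = d x * (star u * V) := by rw [hu1, one_mul]
  have hza : z * (star u * V) = 0 := by
    rw [hcen _ hac, mul_assoc, hVz, mul_zero]
  set a : Q := star u * V with ha
  have haz : a * z = 0 := by rw [ha, mul_assoc, hVz, mul_zero]
  have hsaz : star a * z = 0 := by
    have := congrArg star hza
    rwa [star_mul, hzs, star_zero] at this
  have haa : star a * a = 1 - z := by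
    rw [ha, star_mul, star_star, mul_assoc, ← mul_assoc u, hu2, one_mul, h1]
  have hg : 1 - z - a * star a = 0 := by
    apply hf
    have e1 : star (1 - z - a * star a) = 1 - z - a * star a := by
      rw [star_sub, star_sub, star_one, hzs, star_mul, star_star]
    have e2 : (1 - z - a * star a) * (1 - z - a * star a) = 1 - z - a * star a := by
      have e3 : a * star a * (a * star a) = a * star a := by
        calc a * star a * (a * star a) = a * (star a * a) * star a := by simp only [mul_assoc]
          _ = (a - a * z) * star a := by rw [haa, mul_sub, mul_one]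
          _ = a * star a := by rw [haz, sub_zero]
      have e4 : z * (a * star a) = 0 := by rw [← mul_assoc, hza, zero_mul]
      have e5 : a * star a * z = 0 := by rw [mul_assoc, hsaz, mul_zero]
      calc (1 - z - a * star a) * (1 - z - a * star a)
          = 1 - z - z + z * z - a * star a - a * star a + z * (a * star a) + a * star a * z +
            a * star a * (a * star a) := by noncomm_ring
        _ = 1 - z - a * star a := by rw [hz, e3, e4, e5]; abel
    rw [e1, e2, map_sub, map_sub, ht a, haa, map_sub, sub_self]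
  have hzq : star u * q * u = z := by
    have e1 : a * star a = 1 - star u * q * u := by
      rw [ha, star_mul, star_star]
      calc star u * V * (star V * u) = star u * (V * star V) * u := by simp only [mul_assoc]
        _ = star u * u - star u * q * u := by rw [h2]; noncomm_ring
        _ = 1 - star u * q * u := by rw [hu1]
    rw [e1] at hg
    have e2 : star u * q * u - z = 0 := by
      rw [← hg]; abel
    exact sub_eq_zero.1 e2
  have huz : u * z = q * u := by
    rw [← hzq]
    calc u * (star u * q * u) = (u * star u) * (q * u) := by simp only [mul_assoc]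
      _ = q * u := by rw [hu2, one_mul]
  have hW : ∀ x, u * z * d x = d x * (u * z) := by
    intro x
    calc u * z * d x = u * d x * z := by rw [mul_assoc, hcz, ← mul_assoc]
      _ = (u * d x * star u) * (u * z) := by
        have : (u * d x * star u) * (u * z) = u * d x * (star u * u) * z := by
          simp only [mul_assoc]
        rw [this, hu1, mul_one]
      _ = (d x * q + V * d x * star V) * (q * u) := by rw [hux, huz]
      _ = d x * (q * q) * u + V * d x * (star V * q) * u := by
        rw [add_mul]; simp only [mul_assoc]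
      _ = d x * (u * z) := by
        rw [hqV', mul_zero, zero_mul, add_zero, hq, huz, mul_assoc]
  have h3 : z * (u * z) = u * z := by
    rw [hcen _ hW, mul_assoc, hz]
  calc z * q = z * (q * u * star u) := by rw [mul_assoc q, hu2, mul_one]
    _ = (z * (u * z)) * star u := by rw [← huz]; simp only [mul_assoc]
    _ = q := by rw [h3, huz, mul_assoc, hu2, mul_one]

end alg

section fac

variable {M : Type u} [CStarAlgebra M] [TracialVN M]

/-- Projections of the same trace are equivalent. -/
theorem exists_pi (hM : IsFactor M) {p q : M} (hp : Proj p) (hq : Proj q) (h : rt p = rt q) :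
    ∃ v : M, star v * v = p ∧ v * star v = q ∧ v * p = v ∧ q * v = v := by
  obtain ⟨v, hv, hqv⟩ := exists_comparison hM hp hq h.le
  have hvp : v * p = v := by
    have h2 : v * (1 - p) = 0 := by
      apply eq_zero_of_ssm
      rw [star_mul, hp.one_sub.star_eq]
      calc (1 - p) * star v * (v * (1 - p)) = (1 - p) * (star v * v) * (1 - p) := by
            simp only [mul_assoc]
        _ = 0 := by
          rw [hv, sub_mul, one_mul, hp.mul_self, sub_self, zero_mul]
    rw [mul_sub, mul_one, sub_eq_zero] at h2
    exact h2.symm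
  have hPI : PI v := by
    show v * star v * v = v
    rw [mul_assoc, hv, hvp]
  have hfp := hPI.proj_left
  have hle' : v * star v * q = v * star v := by
    have := congrArg star hqv
    rw [star_mul, hq.star_eq] at this
    rw [mul_assoc, this]
  have hq' : Proj (q - v * star v) := hfp.sub hq hle'
  have h3 : rt (q - v * star v) = 0 := by
    rw [rt_sub, rt_comm v, hv, h, sub_self]
  have h4 := hq'.eq_zero h3.le
  exact ⟨v, hv, (sub_eq_zero.1 h4).symm, hvp, hqv⟩

end fac

section upow

variable {M : Type u} [CStarAlgebra M] {τ : M →ₗ[ℂ] ℂ}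

/-- The relative commutant of the diagonal has no nontrivial central projection. -/
theorem center_part (h : Stmt.IsII1Factor τ) (ω : Ultrafilter ℕ) (hω : (ω : Filter ℕ) ≤ cofinite)
    (hJ : JungProperty (vn h) (ω : Filter ℕ)) (hsep : Stmt.Separable τ)
    (z : UPow (vn h) (ω : Filter ℕ)) (hzs : star z = z) (hz : z * z = z)
    (hcz : ∀ x, z * diag (vn h) (ω : Filter ℕ) x = diag (vn h) (ω : Filter ℕ) x * z)
    (hcen : ∀ a, (∀ x, a * diag (vn h) (ω : Filter ℕ) x = diag (vn h) (ω : Filter ℕ) x * a) →
      z * a = a * z) : z = 0 ∨ z = 1 := by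
  let _ : TracialVN M := toTracialVN (vn h)
  have hM : IsFactor M := h.2.1
  have hinf := h.2.2
  obtain ⟨t, ht, ht1, htc, htp⟩ := exists_utr' (vn h) ω
  have hωtop : (ω : Filter ℕ) ≤ atTop := hω.trans Nat.cofinite_eq_atTop.le
  -- the trace is faithful
  have hf : ∀ a : UPow (vn h) (ω : Filter ℕ), t (star a * a) = 0 → a = 0 := by
    intro a ha
    obtain ⟨s, rfl⟩ := UPow.mk_surjective (vn h) (ω : Filter ℕ) a
    rw [UPow.star_mk, ← map_mul] at ha
    have e1 := ht (star s * s)
    rw [ha] at e1
    have e2 : Tendsto (fun k => n2 (s.seq k) ^ 2) (ω : Filter ℕ) (𝓝 0) := by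
      have e3 := (Complex.continuous_re.tendsto _).comp e1
      rw [Complex.zero_re] at e3
      refine e3.congr fun k => ?_
      exact rt_ssm (s.seq k)
    have e3 : Tendsto (fun k => n2 (s.seq k)) (ω : Filter ℕ) (𝓝 0) := by
      have e4 := e2.sqrt
      rw [Real.sqrt_zero] at e4
      refine e4.congr fun k => ?_
      exact Real.sqrt_sq (n2_nonneg _)
    rw [← map_zero (UPow.mk (vn h) (ω : Filter ℕ)), UPow.mk_eq]
    refine e3.congr fun k => ?_
    show n2 (s.seq k) = n2 (s.seq k - 0)
    rw [sub_zero]
  -- lift the projection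
  obtain ⟨b, rfl⟩ := UPow.mk_surjective (vn h) (ω : Filter ℕ) z
  obtain ⟨C, hC⟩ := b.2
  have hb1 : Tendsto (fun k => n2 (star (b.seq k) - b.seq k)) (ω : Filter ℕ) (𝓝 0) := by
    rw [UPow.star_mk, UPow.mk_eq] at hzs
    exact hzs
  have hb2 : Tendsto (fun k => n2 (b.seq k * b.seq k - b.seq k)) (ω : Filter ℕ) (𝓝 0) := by
    rw [← map_mul, UPow.mk_eq] at hz
    exact hz
  have hb3 : Tendsto (fun k => rt (b.seq k)) (ω : Filter ℕ)
      (𝓝 (t (UPow.mk (vn h) (ω : Filter ℕ) b)).re) := (Complex.continuous_re.tendsto _).comp (ht b)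
  obtain ⟨p, hp, hpb⟩ := exists_lift_proj hM hinf (ω := (ω : Filter ℕ)) hC hb1 hb2 hb3
  generalize (t (UPow.mk (vn h) (ω : Filter ℕ) b)).re = s at hp
  set ps : LInf M := ⟨p, 1, fun n => (hp n).1.norm_le⟩ with hps
  have hzp : UPow.mk (vn h) (ω : Filter ℕ) b = UPow.mk (vn h) (ω : Filter ℕ) ps := by
    symm
    rw [UPow.mk_eq]
    exact hpb
  rw [hzp] at hzs hz hcz hcen ⊢
  have hpc : ∀ x, Tendsto (fun k => n2 (p k * x - x * p k)) (ω : Filter ℕ) (𝓝 0) := by
    intro x
    have e1 := hcz x
    rw [diag_eq, ← map_mul, ← map_mul, UPow.mk_eq] at e1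
    exact e1
  obtain ⟨k, hk1, hk2⟩ := exists_reindex hM hsep (fun n => (hp n).1) (fun n => (hp n).2) hpc
  choose v hv1 hv2 hv3 hv4 using fun n => exists_pi hM (hp n).1.one_sub (hp (k n)).1.one_sub
    (by rw [rt_sub, rt_sub, (hp n).2, (hp (k n)).2])
  have hvn : ∀ n, ‖v n‖ ≤ 1 := by
    intro n
    have h2 := CStarRing.norm_star_mul_self (x := v n)
    rw [hv1] at h2
    have h3 := (hp n).1.one_sub.norm_le
    have h4 := norm_nonneg (v n)
    nlinarith
  set qs : LInf M := ⟨fun n => p (k n), 1, fun n => (hp (k n)).1.norm_le⟩ with hqs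
  set vs : LInf M := ⟨v, 1, hvn⟩ with hvs
  set z : UPow (vn h) (ω : Filter ℕ) := UPow.mk (vn h) (ω : Filter ℕ) ps with hzdef
  set q : UPow (vn h) (ω : Filter ℕ) := UPow.mk (vn h) (ω : Filter ℕ) qs with hqdef
  set V : UPow (vn h) (ω : Filter ℕ) := UPow.mk (vn h) (ω : Filter ℕ) vs with hVdef
  have hq : q * q = q := by
    rw [hqdef, ← map_mul]
    exact congrArg _ (LInf.ext' fun n => (hp (k n)).1.mul_self)
  have hqstar : star q = q := by
    rw [hqdef, UPow.star_mk]
    exact congrArg _ (LInf.ext' fun n => (hp (k n)).1.star_eq)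
  have h1 : star V * V = 1 - z := by
    rw [hzdef, hVdef, UPow.star_mk, ← map_mul, ← map_one (UPow.mk (vn h) (ω : Filter ℕ)), ← map_sub]
    exact congrArg _ (LInf.ext' fun n => hv1 n)
  have h2 : V * star V = 1 - q := by
    rw [hqdef, hVdef, UPow.star_mk, ← map_mul, ← map_one (UPow.mk (vn h) (ω : Filter ℕ)), ← map_sub]
    exact congrArg _ (LInf.ext' fun n => hv2 n)
  have hqV : q * V = 0 := by
    rw [hqdef, hVdef, ← map_mul, ← map_zero (UPow.mk (vn h) (ω : Filter ℕ))]
    refine congrArg _ (LInf.ext' fun n => ?_)
    show p (k n) * v n = 0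
    have e1 := hv4 n
    rw [sub_mul, one_mul, sub_eq_self] at e1
    exact e1
  have hVz : V * z = 0 := by
    rw [hzdef, hVdef, ← map_mul, ← map_zero (UPow.mk (vn h) (ω : Filter ℕ))]
    refine congrArg _ (LInf.ext' fun n => ?_)
    show v n * p n = 0
    have e1 := hv3 n
    rw [mul_sub, mul_one, sub_eq_self] at e1
    exact e1
  have hcq : ∀ x, q * diag (vn h) (ω : Filter ℕ) x = diag (vn h) (ω : Filter ℕ) x * q := by
    intro x
    rw [diag_eq, hqdef, ← map_mul, ← map_mul, UPow.mk_eq]
    exact (hk1 x).mono_left hωtop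
  obtain ⟨u, hu, hux⟩ := hJ (diag (vn h) (ω : Filter ℕ))
    (twist2 (diag (vn h) (ω : Filter ℕ)) z q V hzs hq hqstar h1 h2 hqV hVz hcz hcq)
    (tracePres h ω _) (tracePres h ω _)
  have hzq := center_alg (diag (vn h) (ω : Filter ℕ)) z q V u t htc hf hz hzs hq hqstar h1 h2 hqV
    hVz hcz hcen hu hux
  -- the traces
  have hs1 : (t (z * q)).re = s * s := by
    have e1 := (Complex.continuous_re.tendsto _).comp (ht (ps * qs))
    have e2 : Tendsto (fun n => rt (p n * p (k n))) (ω : Filter ℕ) (𝓝 (s * s)) :=
      hk2.mono_left hωtop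
    rw [map_mul] at e1
    exact tendsto_nhds_unique e1 e2
  have hs2 : (t q).re = s := by
    have e1 := (Complex.continuous_re.tendsto _).comp (ht qs)
    have e2 : Tendsto (fun n : ℕ => rt (p (k n))) (ω : Filter ℕ) (𝓝 s) := by
      have : (fun n : ℕ => rt (p (k n))) = fun _ => s := funext fun n => (hp (k n)).2
      rw [this]
      exact tendsto_const_nhds
    exact tendsto_nhds_unique e1 e2
  rw [hzq, hs2] at hs1
  have hs3 : s * (s - 1) = 0 := by rw [mul_sub, mul_one, ← hs1, sub_self]
  rcases mul_eq_zero.1 hs3 with hs0 | hs0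
  · left
    rw [hzdef, ← map_zero (UPow.mk (vn h) (ω : Filter ℕ))]
    refine congrArg _ (LInf.ext' fun n => ?_)
    exact (hp n).1.eq_zero (by rw [(hp n).2, hs0])
  · right
    rw [hzdef, ← map_one (UPow.mk (vn h) (ω : Filter ℕ))]
    refine congrArg _ (LInf.ext' fun n => ?_)
    have e1 := (hp n).1.one_sub.eq_zero (by rw [rt_sub, rt_one, (hp n).2]; linarith)
    exact (sub_eq_zero.1 e1).symm

end upow

end Pool.Agent.H28.JP
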