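import Pool.Agent.H80.VNGamma

set_option autoImplicit false
set_option linter.unusedSectionVars false

/-!
# JP: endomorphisms into corners

PROOF. Write `e = θ 1`, `t = rt e`; if `t = 1` then `e = 1` (`Proj.eq_zero` for `1 - e`) and
`σ n = θ`. Let `t < 1`. Claim, by induction on `n`: there is `σ : M →⋆ₙₐ[ℂ] M` with
(1) `e * σ x = σ x * e`, (2) `e * σ 1 = e`, (3) `tr (σ x) = tr (σ 1) * tr x`,
(4) `1 - rt (σ 1) ≤ (1 - t) ^ n`. Start: `θ`. Step: let `r = 1 - rt (σ 1)`; if `r = 0` keep `σ`.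
Otherwise let `k ≥ 1` be minimal with `t ^ k ≤ r`; then `t * r ≤ t ^ k`.
The `k`-fold iterate `θk` of `θ` satisfies `tr (θk x) = t ^ k * tr x`.
`exists_comparison` gives `v` with `star v * v = θk 1`, `(1 - σ 1) * v = v`.
Put `σ' x = σ x + v * θk x * star v`. As `σ x * v = σ x * σ 1 * v = 0` and `star v * σ x = 0` it is a
`⋆`-homomorphism; `e * v = e * σ 1 * v = 0`. `1 - rt (σ' 1) = r - t ^ k ≤ (1 - t) * r`.
Finally `n2 (σ 1 - 1) ^ 2 = 1 - rt (σ 1)` as `1 - σ 1` is a projection.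
-/

universe u

open Filter Topology H80VN

namespace Pool.Agent.H28.JP

variable {M : Type u} [CStarAlgebra M] [TracialVN M]

private lemma f_proj (σ : M →⋆ₙₐ[ℂ] M) : Proj (σ 1) :=
  ⟨by rw [← map_mul, one_mul], by rw [← map_star, star_one]⟩

private lemma f_left (σ : M →⋆ₙₐ[ℂ] M) (x : M) : σ 1 * σ x = σ x := by rw [← map_mul, one_mul]

private lemma f_right (σ : M →⋆ₙₐ[ℂ] M) (x : M) : σ x * σ 1 = σ x := by rw [← map_mul, mul_one]

/-- the sum of two homomorphisms with orthogonal ranges -/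
private lemma f_sum (σ τ : M →⋆ₙₐ[ℂ] M) (v : M) (h1 : σ 1 * v = 0) (h2 : star v * v = τ 1) :
    ∃ σ' : M →⋆ₙₐ[ℂ] M, ∀ x, σ' x = σ x + v * τ x * star v := by
  have h1' : star v * σ 1 = 0 := by
    have h := congrArg star h1
    rwa [star_mul, (f_proj σ).star_eq, star_zero] at h
  have h3 : ∀ x, σ x * v = 0 := by
    intro x
    rw [← f_right σ x, mul_assoc, h1, mul_zero]
  have h4 : ∀ x, star v * σ x = 0 := by
    intro x
    rw [← f_left σ x, ← mul_assoc, h1', zero_mul]
  refine ⟨{ toFun := fun x => σ x + v * τ x * star v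
            map_smul' := ?_
            map_zero' := ?_
            map_add' := ?_
            map_mul' := ?_
            map_star' := ?_ }, fun x => rfl⟩
  · intro c x
    show σ (c • x) + v * τ (c • x) * star v = c • (σ x + v * τ x * star v)
    rw [map_smul, map_smul, mul_smul_comm, smul_mul_assoc, smul_add]
  · show σ 0 + v * τ 0 * star v = 0
    rw [map_zero, map_zero, mul_zero, zero_mul, add_zero]
  · intro x y
    show σ (x + y) + v * τ (x + y) * star v
      = (σ x + v * τ x * star v) + (σ y + v * τ y * star v)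
    rw [map_add, map_add, mul_add, add_mul]
    abel
  · intro x y
    show σ (x * y) + v * τ (x * y) * star v
      = (σ x + v * τ x * star v) * (σ y + v * τ y * star v)
    have e1 : σ x * (v * τ y * star v) = 0 := by
      rw [← mul_assoc, ← mul_assoc, h3, zero_mul, zero_mul]
    have e2 : v * τ x * star v * σ y = 0 := by
      rw [mul_assoc, h4, mul_zero]
    have e3 : v * τ x * star v * (v * τ y * star v) = v * τ (x * y) * star v := by
      calc v * τ x * star v * (v * τ y * star v)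
          = v * (τ x * (star v * v)) * τ y * star v := by simp only [mul_assoc]
        _ = v * τ (x * y) * star v := by
            rw [h2, f_right, mul_assoc v, ← map_mul]
    rw [add_mul, mul_add, mul_add, e1, e2, e3, map_mul, add_zero, zero_add]
  · intro x
    show σ (star x) + v * τ (star x) * star v = star (σ x + v * τ x * star v)
    rw [map_star, map_star, star_add, star_mul, star_mul, star_star, mul_assoc]

/-- iterates -/
private lemma f_iter (θ : M →⋆ₙₐ[ℂ] M)
    (hθ : ∀ x, TracialVN.tr (θ x) = TracialVN.tr (θ 1) * TracialVN.tr x) (k : ℕ) :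
    ∃ τ : M →⋆ₙₐ[ℂ] M, ∀ x, TracialVN.tr (τ x) = TracialVN.tr (θ 1) ^ k * TracialVN.tr x := by
  induction k with
  | zero => exact ⟨NonUnitalStarAlgHom.id ℂ M, fun x => by simp⟩
  | succ k ih =>
    obtain ⟨τ, hτ⟩ := ih
    refine ⟨θ.comp τ, fun x => ?_⟩
    rw [NonUnitalStarAlgHom.comp_apply, hθ, hτ, pow_succ]
    ring

private lemma f_pow {t r : ℝ} (ht0 : 0 < t) (ht1 : t < 1) (hr0 : 0 < r) (hr1 : r ≤ 1) :
    ∃ k : ℕ, t ^ k ≤ r ∧ t * r ≤ t ^ k := by
  classical
  have hex : ∃ k : ℕ, t ^ k ≤ r := by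
    obtain ⟨k, hk⟩ := exists_pow_lt_of_lt_one hr0 ht1
    exact ⟨k, hk.le⟩
  refine ⟨Nat.find hex, Nat.find_spec hex, ?_⟩
  rcases Nat.eq_zero_or_pos (Nat.find hex) with h | h
  · rw [h, pow_zero]
    nlinarith
  · obtain ⟨j, hj⟩ : ∃ j, Nat.find hex = j + 1 := ⟨Nat.find hex - 1, by omega⟩
    have h1 : ¬ t ^ j ≤ r := Nat.find_min hex (by omega)
    push Not at h1
    rw [hj, pow_succ]
    nlinarith

private lemma f_step (hM : IsFactor M) (θ : M →⋆ₙₐ[ℂ] M)
    (hθ : ∀ x, TracialVN.tr (θ x) = TracialVN.tr (θ 1) * TracialVN.tr x) (h0 : θ 1 ≠ 0)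
    (n : ℕ) :
    ∃ σ : M →⋆ₙₐ[ℂ] M, (∀ x, θ 1 * σ x = σ x * θ 1) ∧ θ 1 * σ 1 = θ 1 ∧
      (∀ x, TracialVN.tr (σ x) = TracialVN.tr (σ 1) * TracialVN.tr x) ∧
      1 - rt (σ 1) ≤ (1 - rt (θ 1)) ^ (n + 1) := by
  have he : Proj (θ 1) := f_proj θ
  set t : ℝ := rt (θ 1) with ht
  have ht0 : 0 < t := he.rt_pos h0
  have ht1 : t ≤ 1 := he.rt_le_one
  have htr : TracialVN.tr (θ 1) = (t : ℂ) := tr_eq_rt he.star_eq
  induction n with
  | zero =>
    refine ⟨θ, fun x => ?_, he.mul_self, hθ, ?_⟩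
    · rw [f_left, f_right]
    · rw [zero_add, pow_one]
  | succ n ih =>
    obtain ⟨σ, h1, h2, h3, h4⟩ := ih
    have hσ : Proj (σ 1) := f_proj σ
    have hr0 : 0 ≤ 1 - rt (σ 1) := by
      have := hσ.rt_le_one
      linarith
    have hr1 : 1 - rt (σ 1) ≤ 1 := by
      have := hσ.rt_nonneg
      linarith
    rcases hr0.eq_or_lt with hr | hr
    · refine ⟨σ, h1, h2, h3, ?_⟩
      rw [← hr]
      exact pow_nonneg (by linarith) _
    · have ht1' : t < 1 := by
        rcases ht1.eq_or_lt with h | h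
        · rw [h, sub_self, zero_pow (by omega)] at h4
          linarith
        · exact h
      obtain ⟨k, hk1, hk2⟩ := f_pow ht0 ht1' hr hr1
      obtain ⟨τ, hτ⟩ := f_iter θ hθ k
      have hτp : Proj (τ 1) := f_proj τ
      have hτ1 : TracialVN.tr (τ 1) = ((t ^ k : ℝ) : ℂ) := by
        rw [hτ, htr, tr_one, mul_one]
        push_cast
        rfl
      have hτr : rt (τ 1) = t ^ k := by
        unfold rt
        rw [hτ1, Complex.ofReal_re]
      obtain ⟨v, hv1, hv2⟩ := exists_comparison hM hτp hσ.one_sub (by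
        rw [hτr, rt_sub, rt_one]
        exact hk1)
      have hv3 : σ 1 * v = 0 := by
        rw [sub_mul, one_mul, sub_eq_self] at hv2
        exact hv2
      obtain ⟨σ', hσ'⟩ := f_sum σ τ v hv3 hv1
      have hev : θ 1 * v = 0 := by
        rw [← h2, mul_assoc, hv3, mul_zero]
      have hve : star v * θ 1 = 0 := by
        have h := congrArg star hev
        rwa [star_mul, he.star_eq, star_zero] at h
      have hz1 : ∀ x, θ 1 * (v * τ x * star v) = 0 := by
        intro x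
        rw [← mul_assoc, ← mul_assoc, hev, zero_mul, zero_mul]
      have hz2 : ∀ x, v * τ x * star v * θ 1 = 0 := by
        intro x
        rw [mul_assoc, hve, mul_zero]
      have htrv : ∀ x, TracialVN.tr (v * τ x * star v) = ((t ^ k : ℝ) : ℂ) * TracialVN.tr x := by
        intro x
        rw [mul_assoc, tr_comm, mul_assoc, hv1, f_right, hτ, htr]
        push_cast
        rfl
      have htr1 : TracialVN.tr (σ' 1) = TracialVN.tr (σ 1) + ((t ^ k : ℝ) : ℂ) := by
        rw [hσ', map_add, htrv, tr_one, mul_one]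
      refine ⟨σ', fun x => ?_, ?_, fun x => ?_, ?_⟩
      · rw [hσ', mul_add, add_mul, hz1, hz2, h1]
      · rw [hσ', mul_add, hz1, add_zero, h2]
      · rw [htr1, hσ', map_add, htrv, h3 x, add_mul]
      · have h5 : rt (σ' 1) = rt (σ 1) + t ^ k := by
          unfold rt
          rw [htr1, Complex.add_re, Complex.ofReal_re]
        rw [h5, pow_succ (1 - t) (n + 1)]
        have h6 : (1 - rt (σ 1)) * (1 - t) ≤ (1 - t) ^ (n + 1) * (1 - t) :=
          mul_le_mul_of_nonneg_right h4 (by linarith)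
        linarith

theorem exists_corner_seq (hM : IsFactor M) (θ : M →⋆ₙₐ[ℂ] M)
    (hθ : ∀ x, TracialVN.tr (θ x) = TracialVN.tr (θ 1) * TracialVN.tr x) (h0 : θ 1 ≠ 0) :
    ∃ σ : ℕ → (M →⋆ₙₐ[ℂ] M),
      (∀ n x, θ 1 * σ n x = σ n x * θ 1) ∧
      (∀ n x, TracialVN.tr (σ n x) = TracialVN.tr (σ n 1) * TracialVN.tr x) ∧
      Tendsto (fun n => n2 (σ n 1 - 1)) atTop (𝓝 0) := by
  choose σ h1 _ h3 h4 using f_step hM θ hθ h0
  refine ⟨σ, h1, h3, ?_⟩
  have he : Proj (θ 1) := f_proj θ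
  have ht0 : 0 < rt (θ 1) := he.rt_pos h0
  have ht1 : rt (θ 1) ≤ 1 := he.rt_le_one
  have hb : ∀ n, n2 (σ n 1 - 1) ≤ √((1 - rt (θ 1)) ^ (n + 1)) := by
    intro n
    apply Real.le_sqrt_of_sq_le
    rw [n2_sub_comm, (f_proj (σ n)).one_sub.n2_sq, rt_sub, rt_one]
    exact h4 n
  have hlim : Tendsto (fun n : ℕ => √((1 - rt (θ 1)) ^ (n + 1))) atTop (𝓝 0) := by
    have h5 : Tendsto (fun n : ℕ => (1 - rt (θ 1)) ^ (n + 1)) atTop (𝓝 0) :=
      (tendsto_pow_atTop_nhds_zero_of_lt_one (by linarith) (by linarith)).comp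
        (tendsto_add_atTop_nat 1)
    have h6 := (Real.continuous_sqrt.tendsto 0).comp h5
    rw [Real.sqrt_zero] at h6
    exact h6
  exact squeeze_zero (fun n => n2_nonneg _) hb hlim

end Pool.Agent.H28.JP
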