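import Pool.Agent.H80.VNGamma

set_option autoImplicit false

/-!
# JP: factors with property Gamma

Almost central projections of trace `1/2` and partial isometries between them and their complements.
-/

universe u

open Filter Topology H80VN

namespace Pool.Agent.H28.JP

variable {M : Type u} [CStarAlgebra M] [TracialVN M]

theorem nogap_of_gamma (hG : Gamma M) : NoGap M := by
  intro F _ η hη
  have hc : (0 : ℝ) < F.card + 1 := by positivity
  obtain ⟨u, hu, hu0, hcomm⟩ := hG F (√(η / (F.card + 1))) (Real.sqrt_pos.2 (by positivity))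
  have hn : n2 u = 1 := by
    have h1 := n2_mul_unitary hu (1 : M)
    rwa [one_mul, n2_one] at h1
  refine ⟨u, ?_, hu0, ?_⟩
  · rintro rfl
    rw [n2_zero] at hn
    exact zero_ne_one hn
  · rw [hn, one_pow, mul_one]
    have h2 : ∀ f ∈ F, n2 (u * f - f * u) ^ 2 ≤ η / (F.card + 1) := by
      intro f hf
      have h3 := (hcomm f hf).le
      rw [n2_sub_comm] at h3
      have h4 := pow_le_pow_left₀ (n2_nonneg _) h3 2
      rwa [Real.sq_sqrt (by positivity)] at h4
    unfold cs2
    refine (Finset.sum_le_card_nsmul F _ _ h2).trans ?_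
    rw [nsmul_eq_mul, ← mul_div_assoc, div_le_iff₀ hc]
    nlinarith

/-- Almost central projections of trace `1/2`. -/
theorem exists_half_central (hM : IsFactor M) (hinf : ¬ FiniteDimensional ℂ M) (hg : NoGap M)
    (F : Finset M) (hF : ∀ f ∈ F, f ∈ unitary M) {ε : ℝ} (hε : 0 < ε) :
    ∃ r, Proj r ∧ rt r = 1 / 2 ∧ ∀ f ∈ F, n2 (r * f - f * r) ≤ ε := by
  obtain ⟨k, hk⟩ := exists_pow_lt_of_lt_one (show 0 < (ε / 8) ^ 2 by positivity)
    (show (8 / 9 : ℝ) < 1 by norm_num)
  obtain ⟨p, hp, hpr, hpc⟩ := hg.ac hM k F hF ((ε / 4) ^ 2) (by positivity)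
  have hcomm : ∀ f ∈ F, n2 (p * f - f * p) ≤ ε / 4 := fun f hf =>
    (sq_le_sq₀ (n2_nonneg _) (by positivity)).1 ((le_cs2 hf p).trans hpc)
  have key : ∀ q : M, Proj q → 1 / 2 ≤ rt q → |2 * rt q - 1| ≤ (8 / 9) ^ k →
      (∀ f ∈ F, n2 (q * f - f * q) ≤ ε / 4) →
      ∃ r, Proj r ∧ rt r = 1 / 2 ∧ ∀ f ∈ F, n2 (r * f - f * r) ≤ ε := by
    intro q hq hq2 hqr hqc
    obtain ⟨r, hr, hr2, hqr'⟩ := exists_half hM hinf hq hq2
    refine ⟨r, hr, hr2, fun f hf => ?_⟩
    have h1 : n2 (q - r) ≤ ε / 8 := by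
      refine (sq_le_sq₀ (n2_nonneg _) (by positivity)).1 ?_
      rw [hqr']
      have := (abs_le.1 hqr).2
      linarith only [hk, hq2, this]
    have h2 : r * f - f * r = (q * f - f * q) - ((q - r) * f - f * (q - r)) := by
      noncomm_ring
    rw [h2]
    have h3 := n2_sub_le (q * f - f * q) ((q - r) * f - f * (q - r))
    have h4 := n2_sub_le ((q - r) * f) (f * (q - r))
    rw [n2_mul_unitary (hF f hf), n2_unitary_mul (hF f hf)] at h4
    have h5 := hqc f hf
    linarith only [h1, h3, h4, h5, hε]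
  rcases le_total (1 / 2) (rt p) with h | h
  · exact key p hp h hpr hcomm
  · refine key (1 - p) hp.one_sub (by rw [rt_sub, rt_one]; linarith only [h]) ?_ ?_
    · have h6 : 2 * rt (1 - p) - 1 = -(2 * rt p - 1) := by
        rw [rt_sub, rt_one]; ring
      rw [h6, abs_neg]
      exact hpr
    · intro f hf
      have : (1 - p) * f - f * (1 - p) = -(p * f - f * p) := by noncomm_ring
      rw [this, n2_neg]
      exact hcomm f hf

/-- A partial isometry from a projection of trace `1/2` to its complement. -/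
theorem exists_matrix_unit (hM : IsFactor M) {r : M} (hr : Proj r) (h : rt r = 1 / 2) :
    ∃ v : M, star v * v = r ∧ v * star v = 1 - r := by
  have h1 : rt (1 - r) = 1 / 2 := by rw [rt_sub, rt_one, h]; norm_num
  obtain ⟨v, hv, hqv⟩ := exists_comparison hM hr hr.one_sub (by rw [h, h1])
  refine ⟨v, hv, ?_⟩
  -- `v v⋆ ≤ 1 - r` have the same trace
  have hvr : v * r = v := by
    have h2 : v * (1 - r) = 0 := by
      apply eq_zero_of_ssm
      rw [star_mul, hr.one_sub.star_eq]
      calc (1 - r) * star v * (v * (1 - r)) = (1 - r) * (star v * v) * (1 - r) := by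
            simp only [mul_assoc]
        _ = 0 := by
          rw [hv, sub_mul, one_mul, hr.mul_self, sub_self, zero_mul]
    rw [mul_sub, mul_one, sub_eq_zero] at h2
    exact h2.symm
  have hPI : PI v := by
    show v * star v * v = v
    rw [mul_assoc, hv, hvr]
  have hfp := hPI.proj_left
  have hle' : v * star v * (1 - r) = v * star v := by
    have := congrArg star hqv
    rw [star_mul, hr.one_sub.star_eq] at this
    rw [mul_assoc, this]
  have hq' : Proj (1 - r - v * star v) := hfp.sub hr.one_sub hle'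
  have h3 : rt (1 - r - v * star v) = 0 := by
    rw [rt_sub, h1, rt_comm v, hv, h]
    norm_num
  have h4 := hq'.eq_zero h3.le
  exact (sub_eq_zero.1 h4).symm

/-- Almost central projections of trace `1/2`, with partial isometries. -/
theorem exists_seq (hM : IsFactor M) (hinf : ¬ FiniteDimensional ℂ M) (hg : NoGap M)
    (hsep : ∃ D : Set M, D.Countable ∧ ∀ (x : M) (ε : ℝ), 0 < ε → ∃ d ∈ D, n2 (x - d) < ε) :
    ∃ r v : ℕ → M, (∀ n, Proj (r n) ∧ rt (r n) = 1 / 2 ∧ star (v n) * v n = r n ∧
      v n * star (v n) = 1 - r n) ∧ ∀ x, Tendsto (fun n => n2 (x * r n - r n * x)) atTop (𝓝 0) := by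
  classical
  obtain ⟨D, hD, hdense⟩ := hsep
  have hDne : D.Nonempty := by
    obtain ⟨d, hd, _⟩ := hdense 0 1 one_pos
    exact ⟨d, hd⟩
  obtain ⟨d, hd⟩ := hD.exists_eq_range hDne
  choose w c hx hc using fun x : M => CStarAlgebra.exists_sum_four_unitary x
  let F : ℕ → Finset M := fun n =>
    ((Finset.range n) ×ˢ (Finset.univ : Finset (Fin 4))).image fun z => (w (d z.1) z.2 : M)
  have hF : ∀ n, ∀ f ∈ F n, f ∈ unitary M := by
    intro n f hf
    rw [Finset.mem_image] at hf
    obtain ⟨z, _, rfl⟩ := hf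
    exact (w (d z.1) z.2).2
  have hex : ∀ n : ℕ, ∃ r v : M, (Proj r ∧ rt r = 1 / 2 ∧ star v * v = r ∧ v * star v = 1 - r) ∧
      ∀ f ∈ F n, n2 (r * f - f * r) ≤ 1 / ((n : ℝ) + 1) := by
    intro n
    obtain ⟨r, hr, hr2, hrc⟩ := exists_half_central hM hinf hg (F n) (hF n)
      (show (0 : ℝ) < 1 / ((n : ℝ) + 1) by positivity)
    obtain ⟨v, hv, hv'⟩ := exists_matrix_unit hM hr hr2
    exact ⟨r, v, ⟨hr, hr2, hv, hv'⟩, hrc⟩
  choose r v hrv hrc using hex
  refine ⟨r, v, hrv, ?_⟩
  -- the unitaries in the decomposition of the `d j`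
  have hunit : ∀ (j : ℕ) (i : Fin 4),
      Tendsto (fun n => n2 ((w (d j) i : M) * r n - r n * (w (d j) i : M))) atTop (𝓝 0) := by
    intro j i
    refine squeeze_zero' (Eventually.of_forall fun n => n2_nonneg _) ?_
      tendsto_one_div_add_atTop_nhds_zero_nat
    filter_upwards [eventually_gt_atTop j] with n hn
    rw [n2_sub_comm]
    refine hrc n _ ?_
    show _ ∈ F n
    rw [Finset.mem_image]
    exact ⟨(j, i), by simp [hn], rfl⟩
  have hsum : ∀ (s : Finset (Fin 4)) (g : Fin 4 → M), n2 (∑ i ∈ s, g i) ≤ ∑ i ∈ s, n2 (g i) := by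
    intro s g
    induction s using Finset.induction_on with
    | empty => simp [n2_zero]
    | insert a s ha ih =>
      rw [Finset.sum_insert ha, Finset.sum_insert ha]
      exact (n2_add_le _ _).trans (by linarith)
  have hd0 : ∀ j, Tendsto (fun n => n2 (d j * r n - r n * d j)) atTop (𝓝 0) := by
    intro j
    have h1 : Tendsto (fun n => ∑ i : Fin 4, ‖c (d j) i‖ *
        n2 ((w (d j) i : M) * r n - r n * (w (d j) i : M))) atTop (𝓝 0) := by
      have h2 := tendsto_finsetSum (Finset.univ : Finset (Fin 4)) fun i _ =>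
        (hunit j i).const_mul ‖c (d j) i‖
      simpa using h2
    refine squeeze_zero (fun n => n2_nonneg _) (fun n => ?_) h1
    have h3 : d j * r n - r n * d j =
        ∑ i, c (d j) i • ((w (d j) i : M) * r n - r n * (w (d j) i : M)) := by
      nth_rw 1 2 [hx (d j)]
      rw [Finset.sum_mul, Finset.mul_sum, ← Finset.sum_sub_distrib]
      refine Finset.sum_congr rfl fun i _ => ?_
      rw [smul_mul_assoc, mul_smul_comm, smul_sub]
    rw [h3]
    refine (hsum _ _).trans (Finset.sum_le_sum fun i _ => ?_)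
    rw [n2_smul]
  intro x
  rw [Metric.tendsto_atTop]
  intro ε hε
  obtain ⟨e, he, hxe⟩ := hdense x (ε / 3) (by positivity)
  rw [hd] at he
  obtain ⟨j, rfl⟩ := he
  obtain ⟨N, hN⟩ := Metric.tendsto_atTop.1 (hd0 j) (ε / 3) (by positivity)
  refine ⟨N, fun n hn => ?_⟩
  have h1 := hN n hn
  rw [Real.dist_eq, sub_zero, abs_of_nonneg (n2_nonneg _)] at h1 ⊢
  have h2 : x * r n - r n * x = (d j * r n - r n * d j) +
      ((x - d j) * r n - r n * (x - d j)) := by noncomm_ring
  rw [h2]
  have h3 := n2_add_le (d j * r n - r n * d j) ((x - d j) * r n - r n * (x - d j))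
  have h4 := n2_sub_le ((x - d j) * r n) (r n * (x - d j))
  have hr1 := (hrv n).1.norm_le
  have h5 : n2 ((x - d j) * r n) ≤ n2 (x - d j) := n2_mul_le_of_norm_le_one_right _ hr1
  have h6 : n2 (r n * (x - d j)) ≤ n2 (x - d j) := n2_mul_le_of_norm_le_one_left hr1 _
  linarith

/-- Almost central projections of trace `1/2` are asymptotically independent of everything. -/
theorem tendsto_tr (hM : IsFactor M) {r : ℕ → M} (hr : ∀ n, Proj (r n)) (hr2 : ∀ n, rt (r n) = 1 / 2)
    {ω : Filter ℕ} (hc : ∀ x, Tendsto (fun n => n2 (x * r n - r n * x)) ω (𝓝 0)) (x : M) :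
    Tendsto (fun n => TracialVN.tr (x * r n)) ω (𝓝 (TracialVN.tr x / 2)) := by
  have hsa : ∀ z : M, star z = z →
      Tendsto (fun n => TracialVN.tr (z * r n)) ω (𝓝 (TracialVN.tr z / 2)) := by
    intro z hz
    have h1 : Tendsto (fun n => rt (z * r n)) ω (𝓝 (rt z / 2)) := by
      rw [Metric.tendsto_nhds]
      intro ε hε
      obtain ⟨G, δ, _, hδ, hind⟩ := independence hM hz (half_pos hε)
      have h2 : ∀ᶠ n in ω, ∀ u ∈ G, n2 (u * r n - r n * u) ≤ δ :=
        G.eventually_all.2 fun u _ =>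
          ((hc u).eventually (gt_mem_nhds hδ)).mono fun k hk => le_of_lt hk
      filter_upwards [h2] with n hn
      have h3 := hind (r n) (hr n).n2_le_one fun u hu => by
        rw [n2_sub_comm]
        exact hn u hu
      rw [hr2] at h3
      rw [Real.dist_eq]
      have h4 : rt (z * r n) - rt z / 2 = rt (z * r n) - rt z * (1 / 2) := by ring
      rw [h4]
      linarith
    have h5 : ∀ n, TracialVN.tr (z * r n) = ((rt (z * r n) : ℝ) : ℂ) := by
      intro n
      have h6 : star (TracialVN.tr (z * r n)) = TracialVN.tr (z * r n) := by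
        rw [← tr_star, star_mul, hz, (hr n).star_eq, TracialVN.tr_comm]
      exact (Complex.conj_eq_iff_re.1 h6).symm
    have h7 : TracialVN.tr z / 2 = ((rt z / 2 : ℝ) : ℂ) := by
      rw [tr_eq_rt hz]; push_cast; rfl
    rw [h7]
    simp only [h5]
    exact (Complex.continuous_ofReal.tendsto _).comp h1
  have h1 := hsa (realPart x : M) (realPart x).2
  have h2 := hsa (imaginaryPart x : M) (imaginaryPart x).2
  have h3 := h1.add (h2.const_mul Complex.I)
  have h4 : TracialVN.tr (realPart x : M) / 2 + Complex.I * (TracialVN.tr (imaginaryPart x : M) / 2) =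
      TracialVN.tr x / 2 := by
    conv_rhs => rw [← realPart_add_I_smul_imaginaryPart x]
    rw [map_add, map_smul, smul_eq_mul]
    ring
  rw [h4] at h3
  refine h3.congr fun n => ?_
  conv_rhs => rw [← realPart_add_I_smul_imaginaryPart x]
  rw [add_mul, smul_mul_assoc, map_add, map_smul, smul_eq_mul]

end Pool.Agent.H28.JP
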