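import Pool.Agent.H80.VNGamma

set_option autoImplicit false

/-!
# JP: factors with spectral gap

`M` is a tracial factor with spectral gap.  If bounded elements `s k` almost intertwine `θ` and the
identity along a filter and are almost unitary, then the endomorphism `θ` is inner.  Elements which
almost commute with everything are almost scalar.
-/

universe u

open Filter Topology H80VN

namespace Pool.Agent.H28.JP

variable {M : Type u} [CStarAlgebra M] [TracialVN M]

theorem unitary_of_isometry {w : M} (h : star w * w = 1) : w ∈ unitary M := by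
  rw [Unitary.mem_iff]
  refine ⟨h, ?_⟩
  have h1 : w * star w * (w * star w) = w * star w := by
    rw [mul_assoc, ← mul_assoc (star w), h, one_mul]
  have hq : star (1 - w * star w) * (1 - w * star w) = 1 - w * star w := by
    rw [star_sub, star_one, star_mul, star_star, sub_mul, mul_sub, mul_sub, one_mul, one_mul,
      mul_one, h1]
    abel
  have h0 : TracialVN.tr (star (1 - w * star w) * (1 - w * star w)) = 0 := by
    rw [hq, map_sub, TracialVN.tr_comm w, h, sub_self]
  have h2 := TracialVN.tr_faithful _ h0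
  exact (sub_eq_zero.1 h2).symm

omit [TracialVN M] in
theorem map_unitary (θ : M →⋆ₐ[ℂ] M) {v : M} (hv : v ∈ unitary M) : θ v ∈ unitary M := by
  rw [Unitary.mem_iff] at hv ⊢
  rw [← map_star, ← map_mul, ← map_mul, hv.1, hv.2, map_one]
  exact ⟨rfl, rfl⟩

/-- If `y` is almost fixed by `z ↦ θ v z v⋆` for all unitaries `v`, then `θ` is inner. -/
theorem inner_of_near (hM : IsFactor M) (θ : M →⋆ₐ[ℂ] M) {y : M} {δ : ℝ} (hδ : δ < n2 y)
    (h : ∀ v ∈ unitary M, n2 (θ v * y * star v - y) ≤ δ) :
    ∃ w ∈ unitary M, ∀ x, θ x = w * x * star w := by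
  let K : Set M := {z | ‖z‖ ≤ ‖y‖ ∧ ∀ v ∈ unitary M, n2 (θ v * z * star v - y) ≤ δ}
  have hne : K.Nonempty := ⟨y, le_rfl, h⟩
  have hcv : Convex ℝ K := by
    intro a ha b hb s t hs ht hst
    refine ⟨?_, fun v hv => ?_⟩
    · have := convex_norm_ball (M := M) ‖y‖ ha.1 hb.1 hs ht hst
      exact this
    · have h1 := convex_n2_ball y δ (ha.2 v hv) (hb.2 v hv) hs ht hst
      have h2 : θ v * (s • a + t • b) * star v =
          s • (θ v * a * star v) + t • (θ v * b * star v) := by
        rw [mul_add, add_mul, mul_smul_comm, mul_smul_comm, smul_mul_assoc, smul_mul_assoc]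
      rw [h2]
      exact h1
  have hcl : ∀ (x : ℕ → M) (z : M), (∀ n, x n ∈ K) → T2 x z → z ∈ K := by
    intro x z hx hxz
    refine ⟨hxz.norm_le fun n => (hx n).1, fun v hv => ?_⟩
    have h1 : T2 (fun n => θ v * x n * star v - y) (θ v * z * star v - y) :=
      ((hxz.mul_left (θ v)).mul_right (star v)).sub (T2.const y)
    exact le_of_tendsto h1.n2 (Eventually.of_forall fun n => (hx n).2 v hv)
  obtain ⟨b, hb, hmin⟩ := exists_min hne hcv (C := ‖y‖) (fun x hx => hx.1) hcl
  have hinv : ∀ u ∈ unitary M, θ u * b = b * u := by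
    intro u hu
    have hθu := map_unitary θ hu
    have hin : θ u * b * star u ∈ K := by
      refine ⟨?_, fun v hv => ?_⟩
      · have e1 : ‖θ u‖ ≤ 1 := (norm_unitary hθu).le
        have e2 : ‖star u‖ ≤ 1 := by
          rw [norm_star]
          exact (norm_unitary hu).le
        calc ‖θ u * b * star u‖ ≤ ‖θ u * b‖ * ‖star u‖ := norm_mul_le _ _
          _ ≤ ‖θ u * b‖ * 1 := by gcongr
          _ ≤ ‖θ u‖ * ‖b‖ := by rw [mul_one]; exact norm_mul_le _ _
          _ ≤ 1 * ‖b‖ := by gcongr
          _ ≤ ‖y‖ := by rw [one_mul]; exact hb.1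
      · have h1 := hb.2 (v * u) (mul_mem hv hu)
        have h2 : θ v * (θ u * b * star u) * star v = θ (v * u) * b * star (v * u) := by
          rw [map_mul, star_mul]
          simp only [mul_assoc]
        rw [h2]
        exact h1
    have h3 : n2 (θ u * b * star u) = n2 b := by
      rw [n2_mul_unitary (Unitary.star_mem hu), n2_unitary_mul hθu]
    have h4 := hmin _ hin h3.le
    calc θ u * b = θ u * b * (star u * u) := by
          rw [Unitary.star_mul_self_of_mem hu, mul_one]
      _ = (θ u * b * star u) * u := by simp only [mul_assoc]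
      _ = b * u := by rw [h4]
  have hall : ∀ x : M, θ x * b = b * x := by
    intro x
    obtain ⟨u, c, hx, _⟩ := CStarAlgebra.exists_sum_four_unitary x
    rw [hx, map_sum, Finset.sum_mul, Finset.mul_sum]
    refine Finset.sum_congr rfl fun i _ => ?_
    rw [map_smul, smul_mul_assoc, mul_smul_comm, hinv _ (u i).2]
  have hb0 : b ≠ 0 := by
    rintro rfl
    have h1 := hb.2 1 (one_mem _)
    rw [mul_zero, zero_mul, zero_sub, n2_neg] at h1
    exact absurd h1 (not_le.2 hδ)
  have hcen : ∀ x : M, star b * b * x = x * (star b * b) := by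
    intro x
    have h1 : star b * θ x = x * star b := by
      have h2 := congrArg star (hall (star x))
      rw [star_mul, star_mul, map_star, star_star, star_star] at h2
      exact h2
    calc star b * b * x = star b * (θ x * b) := by rw [hall, mul_assoc]
      _ = (star b * θ x) * b := by rw [mul_assoc]
      _ = x * (star b * b) := by rw [h1, mul_assoc]
  obtain ⟨c, hc⟩ := hM _ hcen
  have hnb : 0 < n2 b := n2_pos hb0
  have hcn : c = ((n2 b ^ 2 : ℝ) : ℂ) := by
    have h1 := tr_ssm b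
    rw [hc, map_smul, TracialVN.tr_one, smul_eq_mul, mul_one] at h1
    exact h1
  set w : M := ((n2 b : ℝ) : ℂ)⁻¹ • b with hw
  have hwu : w ∈ unitary M := by
    apply unitary_of_isometry
    rw [hw, star_smul, smul_mul_assoc, mul_smul_comm, hc, hcn, smul_smul, smul_smul]
    have h1 : star (((n2 b : ℝ) : ℂ)⁻¹) * (((n2 b : ℝ) : ℂ)⁻¹ * ((n2 b ^ 2 : ℝ) : ℂ)) = 1 := by
      have h2 : ((n2 b : ℝ) : ℂ) ≠ 0 := by
        exact_mod_cast hnb.ne'
      rw [Complex.star_def, map_inv₀, Complex.conj_ofReal]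
      push_cast
      field_simp
    rw [mul_assoc, h1, one_smul]
  refine ⟨w, hwu, fun x => ?_⟩
  have h1 : θ x * w = w * x := by
    rw [hw, mul_smul_comm, smul_mul_assoc, hall]
  rw [← h1, mul_assoc, Unitary.mul_star_self_of_mem hwu, mul_one]

/-- Almost intertwiners, with spectral gap, give inner endomorphisms. -/
theorem exists_inner (hM : IsFactor M) {F : Finset M} {K : ℝ}
    (hK : 0 < K) (hgap : ∀ a : M, n2 (a - TracialVN.tr a • (1 : M)) ^ 2 ≤ K * cs2 F a)
    (θ : M →⋆ₐ[ℂ] M) (ω : Filter ℕ) [ω.NeBot] (s : ℕ → M) {C : ℝ} (hC1 : 1 ≤ C)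
    (hC : ∀ k, ‖s k‖ ≤ C)
    (h1 : ∀ x, Tendsto (fun k => n2 (θ x * s k - s k * x)) ω (𝓝 0))
    (h2 : Tendsto (fun k => n2 (star (s k) * s k - 1)) ω (𝓝 0))
    (h3 : Tendsto (fun k => n2 (s k * star (s k) - 1)) ω (𝓝 0)) :
    ∃ w ∈ unitary M, ∀ x, θ x = w * x * star w := by
  set B : ℝ := 2 * C * √(K * F.card) with hB
  have hB0 : 0 ≤ B := by positivity
  set D : ℝ := C * (1 + B) with hD
  have hD0 : 0 ≤ D := by positivity
  set η : ℝ := 1 / (16 * (D + 1)) with hη
  have hη0 : 0 < η := by positivity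
  have hη1 : (D + 1) * η = 1 / 16 := by
    rw [hη]; field_simp
  have hDη : D * η ≤ 1 / 16 := by nlinarith
  have hη16 : η ≤ 1 / 16 := by nlinarith [mul_nonneg hD0 hη0.le]
  have ev : ∀ g : ℕ → ℝ, Tendsto g ω (𝓝 0) → ∀ᶠ k in ω, g k ≤ η := fun g hg =>
    (hg.eventually (gt_mem_nhds hη0)).mono fun k hk => le_of_lt hk
  have hA : ∀ᶠ k in ω, (∀ f ∈ F, n2 (θ f * s k - s k * f) ≤ η) ∧
      (∀ f ∈ F, n2 (θ (star f) * s k - s k * star f) ≤ η) ∧ n2 (star (s k) * s k - 1) ≤ η ∧
      n2 (s k * star (s k) - 1) ≤ η :=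
    ((F.eventually_all.2 fun f _ => ev _ (h1 f))).and
      (((F.eventually_all.2 fun f _ => ev _ (h1 (star f)))).and ((ev _ h2).and (ev _ h3)))
  -- the size of the elements
  have hsize : ∀ k, n2 (star (s k) * s k - 1) ≤ η → 15 / 16 ≤ n2 (s k) ∧ n2 (s k) ≤ 17 / 16 := by
    intro k hk
    have e1 : n2 (s k) ^ 2 = 1 + rt (star (s k) * s k - 1) := by
      rw [rt_sub, rt_one, rt_ssm]; ring
    have e2 := abs_le.1 ((abs_rt_le' (star (s k) * s k - 1)).trans hk)
    have e3 := n2_nonneg (s k)
    constructor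
    · nlinarith [e2.1]
    · nlinarith [e2.2]
  obtain ⟨k, hk⟩ := hA.exists
  obtain ⟨hk1, hk2, hk3, hk4⟩ := hk
  refine inner_of_near hM θ (y := s k) (δ := 1 / 4) (by linarith [(hsize k hk3).1]) fun v hv => ?_
  obtain ⟨l, ⟨hl1, hl2, hl3, hl4⟩, hlv⟩ := (hA.and (ev _ (h1 v))).exists
  -- `a = s_k⋆ s_l` is almost scalar
  set a : M := star (s k) * s l with ha
  set lam : ℂ := TracialVN.tr a with hlam
  have hcomm : ∀ f ∈ F, n2 (a * f - f * a) ^ 2 ≤ (2 * C * η) ^ 2 := by
    intro f hf
    have e1 : a * f - f * a = star (s k) * (s l * f - θ f * s l) +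
        (star (s k) * θ f - f * star (s k)) * s l := by
      rw [ha]; noncomm_ring
    have e2 : n2 (star (s k) * (s l * f - θ f * s l)) ≤ C * η := by
      refine (n2_mul_le_left _ _).trans ?_
      rw [norm_star, n2_sub_comm]
      exact mul_le_mul (hC k) (hl1 f hf) (n2_nonneg _) (by linarith)
    have e3 : n2 ((star (s k) * θ f - f * star (s k)) * s l) ≤ C * η := by
      refine (n2_mul_le_right _ _).trans ?_
      have e4 : n2 (star (s k) * θ f - f * star (s k)) = n2 (θ (star f) * s k - s k * star f) := by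
        rw [← n2_star, star_sub, star_mul, star_mul, star_star, map_star]
      rw [e4, mul_comm C η]
      exact mul_le_mul (hk2 f hf) (hC l) (norm_nonneg _) hη0.le
    have e5 : n2 (a * f - f * a) ≤ 2 * C * η := by
      rw [e1]
      refine (n2_add_le _ _).trans ?_
      linarith
    exact pow_le_pow_left₀ (n2_nonneg _) e5 2
  have hcs : cs2 F a ≤ F.card * (2 * C * η) ^ 2 := by
    unfold cs2
    refine (Finset.sum_le_card_nsmul F _ _ hcomm).trans ?_
    rw [nsmul_eq_mul]
  have hlam1 : n2 (a - lam • (1 : M)) ≤ B * η := by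
    have e1 := hgap a
    have e2 : n2 (a - lam • (1 : M)) ^ 2 ≤ (B * η) ^ 2 := by
      refine e1.trans ?_
      have e3 : (B * η) ^ 2 = K * (F.card * (2 * C * η) ^ 2) := by
        rw [hB]
        have e4 : √(K * (F.card : ℝ)) ^ 2 = K * F.card := Real.sq_sqrt (by positivity)
        calc (2 * C * √(K * (F.card : ℝ)) * η) ^ 2
            = (√(K * (F.card : ℝ)) ^ 2) * (2 * C * η) ^ 2 := by ring
          _ = K * (F.card * (2 * C * η) ^ 2) := by rw [e4]; ring
      rw [e3]
      exact mul_le_mul_of_nonneg_left hcs hK.le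
    exact (sq_le_sq₀ (n2_nonneg _) (by positivity)).1 e2
  have hclose : n2 (s l - lam • s k) ≤ D * η := by
    have e1 : s l - lam • s k = (1 - s k * star (s k)) * s l + s k * (a - lam • (1 : M)) := by
      rw [ha, sub_mul, one_mul, mul_sub, mul_smul_comm, mul_one, ← mul_assoc]
      abel
    rw [e1]
    refine (n2_add_le _ _).trans ?_
    have e2 : n2 ((1 - s k * star (s k)) * s l) ≤ η * C := by
      refine (n2_mul_le_right _ _).trans ?_
      rw [n2_sub_comm]
      exact mul_le_mul hk4 (hC l) (norm_nonneg _) hη0.le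
    have e3 : n2 (s k * (a - lam • (1 : M))) ≤ C * (B * η) := by
      refine (n2_mul_le_left _ _).trans ?_
      exact mul_le_mul (hC k) hlam1 (n2_nonneg _) (by linarith)
    rw [hD]
    linarith
  have hlam2 : 1 / 2 ≤ ‖lam‖ := by
    have e1 : n2 (s l) ≤ n2 (s l - lam • s k) + n2 (lam • s k) := by
      have := n2_add_le (s l - lam • s k) (lam • s k)
      rwa [sub_add_cancel] at this
    rw [n2_smul] at e1
    have e2 := (hsize l hl3).1
    have e3 := (hsize k hk3).2
    have e4 : ‖lam‖ * n2 (s k) ≤ ‖lam‖ * (17 / 16) := mul_le_mul_of_nonneg_left e3 (norm_nonneg _)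
    linarith
  have hθv := map_unitary θ hv
  have hfin : ‖lam‖ * n2 (θ v * s k - s k * v) ≤ (2 * D + 1) * η := by
    have e1 : lam • (θ v * s k - s k * v) = θ v * (lam • s k - s l) +
        ((θ v * s l - s l * v) + (s l - lam • s k) * v) := by
      rw [smul_sub, mul_sub, sub_mul, mul_smul_comm, smul_mul_assoc]
      abel
    rw [← n2_smul, e1]
    refine (n2_add_le _ _).trans ?_
    refine (add_le_add le_rfl (n2_add_le _ _)).trans ?_
    rw [n2_unitary_mul hθv, n2_mul_unitary hv, n2_sub_comm (lam • s k)]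
    linarith
  have e5 : θ v * s k * star v - s k = (θ v * s k - s k * v) * star v := by
    rw [sub_mul, mul_assoc (s k), Unitary.mul_star_self_of_mem hv, mul_one]
  rw [e5, n2_mul_unitary (Unitary.star_mem hv)]
  have e6 := n2_nonneg (θ v * s k - s k * v)
  have e7 : 1 / 2 * n2 (θ v * s k - s k * v) ≤ (2 * D + 1) * η :=
    (mul_le_mul_of_nonneg_right hlam2 e6).trans hfin
  nlinarith

/-- With spectral gap, almost central sequences are almost scalar. -/
theorem scalar_of_gap {F : Finset M} {K : ℝ}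
    (hgap : ∀ a : M, n2 (a - TracialVN.tr a • (1 : M)) ^ 2 ≤ K * cs2 F a) (ω : Ultrafilter ℕ)
    (s : ℕ → M) {c : ℂ} (hc : Tendsto (fun k => TracialVN.tr (s k)) (ω : Filter ℕ) (𝓝 c))
    (h : ∀ x, Tendsto (fun k => n2 (s k * x - x * s k)) (ω : Filter ℕ) (𝓝 0)) :
    Tendsto (fun k => n2 (s k - c • (1 : M))) (ω : Filter ℕ) (𝓝 0) := by
  have h1 : Tendsto (fun k => K * cs2 F (s k)) (ω : Filter ℕ) (𝓝 0) := by
    have h2 : Tendsto (fun k => cs2 F (s k)) (ω : Filter ℕ) (𝓝 0) := by
      unfold cs2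
      have h3 := tendsto_finsetSum F fun f _ => (h f).pow 2
      simpa using h3
    have h3 := h2.const_mul K
    rwa [mul_zero] at h3
  have h4 : Tendsto (fun k => √(K * cs2 F (s k)) + ‖TracialVN.tr (s k) - c‖) (ω : Filter ℕ)
      (𝓝 0) := by
    have h5 := (h1.sqrt).add ((hc.sub_const c).norm)
    simpa using h5
  refine squeeze_zero (fun k => n2_nonneg _) (fun k => ?_) h4
  have h6 : s k - c • (1 : M) = (s k - TracialVN.tr (s k) • (1 : M)) +
      (TracialVN.tr (s k) - c) • (1 : M) := by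
    rw [sub_smul]; abel
  rw [h6]
  refine (n2_add_le _ _).trans ?_
  rw [n2_smul, n2_one, mul_one]
  exact add_le_add (Real.le_sqrt_of_sq_le (hgap _)) le_rfl

end Pool.Agent.H28.JP
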