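import Pool.Agent.H28.JP.Twist
import Pool.Agent.H28.JP.Gap
import Pool.Agent.H28.JP.Gam
import Pool.Agent.H28.JP.Fund

set_option autoImplicit false

/-!
# JP: the Jung property and property Gamma
-/

universe u

open Filter Topology H80VN Pool.Agent.H68.Amp

namespace Pool.Agent.H28.JP

variable {M : Type u} [CStarAlgebra M] {τ : M →ₗ[ℂ] ℂ}

theorem seq_mul (x y : LInf M) (k : ℕ) : (x * y).seq k = x.seq k * y.seq k := rfl

theorem seq_sub (x y : LInf M) (k : ℕ) : (x - y).seq k = x.seq k - y.seq k := rfl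

theorem seq_star (x : LInf M) (k : ℕ) : (star x).seq k = star (x.seq k) := rfl

theorem seq_one (k : ℕ) : (1 : LInf M).seq k = 1 := rfl

/-- the constant sequence. -/
def cst (x : M) : LInf M := ⟨fun _ => x, ‖x‖, fun _ => le_rfl⟩

theorem diag_eq (h : Stmt.IsTracialVN τ) (ω : Filter ℕ) (x : M) :
    diag h ω x = UPow.mk h ω (cst x) := rfl

theorem LInf.ext' {x y : LInf M} (h : ∀ k, x.seq k = y.seq k) : x = y := Subtype.ext (funext h)

section

variable (h : Stmt.IsII1Factor τ) (ω : Ultrafilter ℕ)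

/-- Part (a): property Gamma. -/
theorem gamma_part (hω : (ω : Filter ℕ) ≤ cofinite) (hJ : JungProperty (vn h) (ω : Filter ℕ))
    (hsep : Stmt.Separable τ) (hG : Stmt.Gamma τ) :
    ∃ e : UPow (vn h) (ω : Filter ℕ), (∀ x, e * diag (vn h) (ω : Filter ℕ) x =
      diag (vn h) (ω : Filter ℕ) x * e) ∧ e * e = 0 ∧ star e * e + e * star e = 1 := by
  let _ : TracialVN M := toTracialVN (vn h)
  have hM : IsFactor M := h.2.1
  have hinf := h.2.2
  obtain ⟨r, v, hrv, hrc⟩ := exists_seq hM hinf (nogap_of_gamma hG) hsep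
  have hvr : ∀ n, v n * r n = v n := by
    intro n
    obtain ⟨hr, -, hv, hv'⟩ := hrv n
    have h2 : v n * (1 - r n) = 0 := by
      apply eq_zero_of_ssm
      rw [star_mul, hr.one_sub.star_eq]
      calc (1 - r n) * star (v n) * (v n * (1 - r n))
          = (1 - r n) * (star (v n) * v n) * (1 - r n) := by simp only [mul_assoc]
        _ = 0 := by rw [hv, sub_mul, one_mul, hr.mul_self, sub_self, zero_mul]
    rw [mul_sub, mul_one, sub_eq_zero] at h2
    exact h2.symm
  have hrv0 : ∀ n, r n * v n = 0 := by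
    intro n
    obtain ⟨hr, -, hv, hv'⟩ := hrv n
    have h2 : v n = (1 - r n) * v n := by
      rw [← hv', mul_assoc, hv, hvr]
    rw [h2, ← mul_assoc, mul_sub, mul_one, hr.mul_self, sub_self, zero_mul]
  have hvn : ∀ n, ‖v n‖ ≤ 1 := by
    intro n
    obtain ⟨hr, -, hv, -⟩ := hrv n
    have h2 := CStarRing.norm_star_mul_self (x := v n)
    rw [hv] at h2
    have h3 := hr.norm_le
    have h4 := norm_nonneg (v n)
    nlinarith
  set rs : LInf M := ⟨r, 1, fun n => (hrv n).1.norm_le⟩ with hrs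
  set vs : LInf M := ⟨v, 1, hvn⟩ with hvs
  set R : UPow (vn h) (ω : Filter ℕ) := UPow.mk (vn h) (ω : Filter ℕ) rs with hRdef
  set V : UPow (vn h) (ω : Filter ℕ) := UPow.mk (vn h) (ω : Filter ℕ) vs with hVdef
  have hR : R * R = R := by
    rw [hRdef, ← map_mul]
    exact congrArg _ (LInf.ext' fun k => (hrv k).1.mul_self)
  have hRs : star R = R := by
    rw [hRdef, UPow.star_mk]
    exact congrArg _ (LInf.ext' fun k => (hrv k).1.star_eq)
  have h1 : star V * V = R := by
    rw [hRdef, hVdef, UPow.star_mk, ← map_mul]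
    exact congrArg _ (LInf.ext' fun k => (hrv k).2.2.1)
  have h2 : V * star V = 1 - R := by
    rw [hRdef, hVdef, UPow.star_mk, ← map_mul, ← map_one (UPow.mk (vn h) (ω : Filter ℕ)), ← map_sub]
    exact congrArg _ (LInf.ext' fun k => (hrv k).2.2.2)
  have hRV : R * V = 0 := by
    rw [hRdef, hVdef, ← map_mul, ← map_zero (UPow.mk (vn h) (ω : Filter ℕ))]
    exact congrArg _ (LInf.ext' fun k => hrv0 k)
  have hVR : V * R = V := by
    rw [hRdef, hVdef, ← map_mul]
    exact congrArg _ (LInf.ext' fun k => hvr k)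
  have hc : ∀ x, R * diag (vn h) (ω : Filter ℕ) x = diag (vn h) (ω : Filter ℕ) x * R := by
    intro x
    symm
    rw [diag_eq, hRdef, ← map_mul, ← map_mul, UPow.mk_eq]
    exact (hrc x).mono_left (hω.trans Nat.cofinite_eq_atTop.le)
  obtain ⟨u, hu, hux⟩ := hJ (diag (vn h) (ω : Filter ℕ))
    (twist (diag (vn h) (ω : Filter ℕ)) R V hR hRs h1 h2 hRV hVR hc) (tracePres h ω _)
    (tracePres h ω _)
  exact exists_e _ R V hR hRs h1 h2 hRV hVR hc u hu hux

/-- Part (b), relative commutants. -/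
theorem comm_part (hJ : JungProperty (vn h) (ω : Filter ℕ)) (hG : ¬ Stmt.Gamma τ)
    (π : M →⋆ₐ[ℂ] UPow (vn h) (ω : Filter ℕ)) (a : UPow (vn h) (ω : Filter ℕ))
    (ha : ∀ x, a * π x = π x * a) : ∃ c : ℂ, a = c • (1 : UPow (vn h) (ω : Filter ℕ)) := by
  let _ : TracialVN M := toTracialVN (vn h)
  have hM : IsFactor M := h.2.1
  have hinf := h.2.2
  obtain ⟨F, K, hF, hK, hgap⟩ := gap_of_not_gamma hM hinf hG
  obtain ⟨u, hu, hux⟩ := hJ π (diag (vn h) (ω : Filter ℕ)) (tracePres h ω _) (tracePres h ω _)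
  have hu1 : star u * u = 1 := Unitary.star_mul_self_of_mem hu
  have hu2 : u * star u = 1 := Unitary.mul_star_self_of_mem hu
  have hb : ∀ x, (u * a * star u) * diag (vn h) (ω : Filter ℕ) x =
      diag (vn h) (ω : Filter ℕ) x * (u * a * star u) := by
    intro x
    rw [hux]
    calc u * a * star u * (u * π x * star u) = u * a * (star u * u) * π x * star u := by
          simp only [mul_assoc]
      _ = u * (a * π x) * star u := by rw [hu1, mul_one]; simp only [mul_assoc]
      _ = u * π x * (star u * u) * a * star u := by rw [ha, hu1, mul_one]; simp only [mul_assoc]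
      _ = u * π x * star u * (u * a * star u) := by simp only [mul_assoc]
  obtain ⟨s, hs⟩ := UPow.mk_surjective (vn h) (ω : Filter ℕ) (u * a * star u)
  rw [← hs] at hb
  obtain ⟨c, hc⟩ := UTr_exists_lim (vn h) ω s
  have h1 : ∀ x, Tendsto (fun k => n2 (s.seq k * x - x * s.seq k)) (ω : Filter ℕ) (𝓝 0) := by
    intro x
    have h2 := hb x
    rw [diag_eq, ← map_mul, ← map_mul, UPow.mk_eq] at h2
    exact h2
  have h2 := scalar_of_gap hgap ω s.seq hc h1
  have h3 : UPow.mk (vn h) (ω : Filter ℕ) s = c • (1 : UPow (vn h) (ω : Filter ℕ)) := by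
    rw [← map_one (UPow.mk (vn h) (ω : Filter ℕ)), ← UPow.mk_smul, UPow.mk_eq]
    exact h2
  refine ⟨c, ?_⟩
  calc a = star u * (u * a * star u) * u := by
        have : star u * (u * a * star u) * u = (star u * u) * a * (star u * u) := by
          simp only [mul_assoc]
        rw [this, hu1, one_mul, mul_one]
    _ = c • (1 : UPow (vn h) (ω : Filter ℕ)) := by
        rw [← hs, h3, mul_smul_comm, mul_one, smul_mul_assoc, hu1]

/-- Part (b), unital endomorphisms. -/
theorem endo_part (hJ : JungProperty (vn h) (ω : Filter ℕ)) (hG : ¬ Stmt.Gamma τ)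
    (θ : M →⋆ₐ[ℂ] M) : ∃ w ∈ unitary M, ∀ x, θ x = w * x * star w := by
  let _ : TracialVN M := toTracialVN (vn h)
  have hM : IsFactor M := h.2.1
  have hinf := h.2.2
  obtain ⟨F, K, hF, hK, hgap⟩ := gap_of_not_gamma hM hinf hG
  obtain ⟨u, hu, hux⟩ := hJ (diag (vn h) (ω : Filter ℕ))
    ((diag (vn h) (ω : Filter ℕ)).comp θ) (tracePres h ω _) (tracePres h ω _)
  have hu1 : star u * u = 1 := Unitary.star_mul_self_of_mem hu
  have hu2 : u * star u = 1 := Unitary.mul_star_self_of_mem hu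
  obtain ⟨s, rfl⟩ := UPow.mk_surjective (vn h) (ω : Filter ℕ) u
  obtain ⟨C, hC⟩ := s.2
  refine exists_inner hM hK hgap θ (ω : Filter ℕ) s.seq (C := max C 1) (le_max_right _ _)
    (fun k => (hC k).trans (le_max_left _ _)) (fun x => ?_) ?_ ?_
  · have h1 : diag (vn h) (ω : Filter ℕ) (θ x) * UPow.mk (vn h) (ω : Filter ℕ) s =
        UPow.mk (vn h) (ω : Filter ℕ) s * diag (vn h) (ω : Filter ℕ) x := by
      have h2 : diag (vn h) (ω : Filter ℕ) (θ x) = _ := hux x
      rw [h2, mul_assoc, hu1, mul_one]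
    rw [diag_eq, diag_eq, ← map_mul, ← map_mul, UPow.mk_eq] at h1
    exact h1
  · rw [UPow.star_mk, ← map_mul, ← map_one (UPow.mk (vn h) (ω : Filter ℕ)), UPow.mk_eq] at hu1
    exact hu1
  · rw [UPow.star_mk, ← map_mul, ← map_one (UPow.mk (vn h) (ω : Filter ℕ)), UPow.mk_eq] at hu2
    exact hu2

/-- the sequence `σ n x`. -/
noncomputable def limSeq (σ : ℕ → (M →⋆ₙₐ[ℂ] M)) (x : M) : LInf M :=
  ⟨fun n => σ n x, ‖x‖, fun n => NonUnitalStarAlgHom.norm_apply_le (σ n) x⟩

/-- The limit of a sequence of endomorphisms with units tending to `1`. -/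
noncomputable def limHom (h : Stmt.IsTracialVN τ) (ω : Filter ℕ) (σ : ℕ → (M →⋆ₙₐ[ℂ] M))
    (hσ : Tendsto (fun n => Stmt.norm2 τ (σ n 1 - 1)) ω (𝓝 0)) : M →⋆ₐ[ℂ] UPow h ω where
  toFun x := UPow.mk h ω (limSeq σ x)
  map_one' := by
    rw [← map_one (UPow.mk h ω), UPow.mk_eq]
    exact hσ
  map_mul' x y := by
    rw [← map_mul (UPow.mk h ω)]
    exact congrArg _ (LInf.ext' fun k => map_mul (σ k) x y)
  map_zero' := by
    rw [← map_zero (UPow.mk h ω)]
    exact congrArg _ (LInf.ext' fun k => map_zero (σ k))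
  map_add' x y := by
    rw [← map_add (UPow.mk h ω)]
    exact congrArg _ (LInf.ext' fun k => map_add (σ k) x y)
  commutes' c := by
    have e1 : UPow.mk h ω (limSeq σ (algebraMap ℂ M c)) = c • UPow.mk h ω (limSeq σ 1) := by
      rw [← UPow.mk_smul]
      refine congrArg _ (LInf.ext' fun k => ?_)
      show σ k (algebraMap ℂ M c) = c • σ k 1
      rw [Algebra.algebraMap_eq_smul_one, map_smul]
    have e2 : UPow.mk h ω (limSeq σ 1) = 1 := by
      rw [← map_one (UPow.mk h ω), UPow.mk_eq]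
      exact hσ
    show UPow.mk h ω (limSeq σ (algebraMap ℂ M c)) = algebraMap ℂ (UPow h ω) c
    rw [e1, e2, Algebra.algebraMap_eq_smul_one]
  map_star' x := by
    rw [UPow.star_mk]
    exact congrArg _ (LInf.ext' fun k => map_star (σ k) x)

theorem limHom_apply (h : Stmt.IsTracialVN τ) (ω : Filter ℕ) (σ : ℕ → (M →⋆ₙₐ[ℂ] M))
    (hσ : Tendsto (fun n => Stmt.norm2 τ (σ n 1 - 1)) ω (𝓝 0)) (x : M) :
    limHom h ω σ hσ x = UPow.mk h ω (limSeq σ x) := rfl

/-- Part (b), endomorphisms. -/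
theorem corner_part (hω : (ω : Filter ℕ) ≤ cofinite) (hJ : JungProperty (vn h) (ω : Filter ℕ))
    (hG : ¬ Stmt.Gamma τ) (θ : M →⋆ₙₐ[ℂ] M) (h0 : θ ≠ 0) :
    ∃ w ∈ unitary M, ∀ x, θ x = w * x * star w := by
  let _ : TracialVN M := toTracialVN (vn h)
  have hM : IsFactor M := h.2.1
  have hθ0 : θ 1 ≠ 0 := by
    intro h1
    apply h0
    ext x
    have : θ x = θ 1 * θ x := by rw [← map_mul, one_mul]
    rw [this, h1, zero_mul]
    rfl
  obtain ⟨σ, hσ1, hσ2, hσ3⟩ := exists_corner_seq hM θ (scale h θ) hθ0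
  have hσ4 : Tendsto (fun n => Stmt.norm2 τ (σ n 1 - 1)) (ω : Filter ℕ) (𝓝 0) :=
    hσ3.mono_left (hω.trans Nat.cofinite_eq_atTop.le)
  obtain ⟨c, hc⟩ := comm_part h ω hJ hG (limHom (vn h) (ω : Filter ℕ) σ hσ4)
    (diag (vn h) (ω : Filter ℕ) (θ 1)) (fun x => by
      rw [diag_eq, limHom_apply, ← map_mul, ← map_mul]
      exact congrArg _ (LInf.ext' fun k => hσ1 k x))
  have h1 : θ 1 = c • (1 : M) := by
    have h2 : diag (vn h) (ω : Filter ℕ) (θ 1) = diag (vn h) (ω : Filter ℕ) (c • (1 : M)) := by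
      rw [hc, map_smul, map_one]
    rw [diag_eq, diag_eq, UPow.mk_eq] at h2
    have h3 : Tendsto (fun _ : ℕ => n2 (θ 1 - c • (1 : M))) (ω : Filter ℕ) (𝓝 0) := h2
    have h4 := tendsto_nhds_unique h3 tendsto_const_nhds
    by_contra hne
    have h5 := n2_pos (sub_ne_zero.2 hne)
    rw [← h4] at h5
    exact lt_irrefl _ h5
  have h2 : θ 1 * θ 1 = θ 1 := by rw [← map_mul, one_mul]
  have h3 : θ 1 = 1 := by
    rw [h1, smul_mul_smul_comm, one_mul] at h2
    have h4 : (c * c - c) • (1 : M) = 0 := by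
      rw [sub_smul, h2, sub_self]
    have h5 : c * c - c = 0 := by
      have h6 := congrArg TracialVN.tr h4
      rw [map_smul, TracialVN.tr_one, map_zero, smul_eq_mul, mul_one] at h6
      exact h6
    have h6 : c * (c - 1) = 0 := by rw [mul_sub, mul_one]; exact h5
    rcases mul_eq_zero.1 h6 with h7 | h7
    · exfalso
      apply hθ0
      rw [h1, h7, zero_smul]
    · rw [h1, sub_eq_zero.1 h7, one_smul]
  obtain ⟨w, hw, hwx⟩ := endo_part h ω hJ hG
    { toFun := θ
      map_one' := h3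
      map_mul' := map_mul θ
      map_zero' := map_zero θ
      map_add' := map_add θ
      commutes' := fun c => by
        show θ (algebraMap ℂ M c) = algebraMap ℂ M c
        rw [Algebra.algebraMap_eq_smul_one, map_smul, h3]
      map_star' := map_star θ }
  exact ⟨w, hw, hwx⟩

end

end Pool.Agent.H28.JP
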