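import Pool.Agent.H28.JP.Defs
import Pool.Agent.H68.Amp.UTr
import Pool.Agent.H68.Amp.UniqTr
import Pool.Agent.H80.VNGamma

set_option autoImplicit false

/-!
# JP: the twisted embedding, lifting to sequences
-/

universe u v

open Filter Topology H80VN Pool.Agent.H68.Amp

namespace Pool.Agent.H28.JP

section alg

variable {M : Type u} [CStarAlgebra M] {Q : Type v} [Ring Q] [StarRing Q] [Algebra ℂ Q]

/-- The twisted embedding `x ↦ d x R + V (d x) V⋆`. -/
noncomputable def twist (d : M →⋆ₐ[ℂ] Q) (R V : Q) (hR : R * R = R) (hRs : star R = R)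
    (h1 : star V * V = R) (h2 : V * star V = 1 - R) (hRV : R * V = 0) (hVR : V * R = V)
    (hc : ∀ x, R * d x = d x * R) : M →⋆ₐ[ℂ] Q where
  toFun x := d x * R + V * d x * star V
  map_one' := by
    rw [map_one, one_mul, mul_one, h2]
    abel
  map_mul' x y := by
    have hRV' : star V * R = 0 := by
      have := congrArg star hRV
      rwa [star_mul, hRs, star_zero] at this
    have hVR' : R * star V = star V := by
      have := congrArg star hVR
      rwa [star_mul, hRs] at this
    have e1 : d x * R * (d y * R) = d (x * y) * R := by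
      calc d x * R * (d y * R) = d x * (R * d y) * R := by simp only [mul_assoc]
        _ = d x * d y * (R * R) := by rw [hc]; simp only [mul_assoc]
        _ = d (x * y) * R := by rw [hR, map_mul]
    have e2 : d x * R * (V * d y * star V) = 0 := by
      calc d x * R * (V * d y * star V) = d x * (R * V) * d y * star V := by simp only [mul_assoc]
        _ = 0 := by rw [hRV, mul_zero, zero_mul, zero_mul]
    have e3 : V * d x * star V * (d y * R) = 0 := by
      calc V * d x * star V * (d y * R) = V * d x * star V * (R * d y) := by rw [hc]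
        _ = V * d x * (star V * R) * d y := by simp only [mul_assoc]
        _ = 0 := by rw [hRV', mul_zero, zero_mul]
    have e4 : V * d x * star V * (V * d y * star V) = V * d (x * y) * star V := by
      calc V * d x * star V * (V * d y * star V) = V * d x * (star V * V) * d y * star V := by
            simp only [mul_assoc]
        _ = V * d x * (R * d y) * star V := by rw [h1]; simp only [mul_assoc]
        _ = V * d x * d y * (R * star V) := by rw [hc]; simp only [mul_assoc]
        _ = V * d (x * y) * star V := by rw [hVR', map_mul]; simp only [mul_assoc]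
    rw [mul_add, add_mul, add_mul, e1, e2, e3, e4, add_zero, zero_add]
  map_zero' := by
    rw [map_zero, zero_mul, mul_zero, zero_mul, add_zero]
  map_add' x y := by
    rw [map_add, add_mul, mul_add, add_mul]
    abel
  commutes' c := by
    rw [AlgHomClass.commutes, ← Algebra.commutes c V, mul_assoc, h2, ← mul_add]
    have : R + (1 - R) = 1 := by abel
    rw [this, mul_one]
  map_star' x := by
    rw [star_add, star_mul, hRs, ← map_star, hc, star_mul, star_mul, star_star, ← map_star,
      ← mul_assoc]

theorem twist_apply (d : M →⋆ₐ[ℂ] Q) (R V : Q) (hR : R * R = R) (hRs : star R = R)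
    (h1 : star V * V = R) (h2 : V * star V = 1 - R) (hRV : R * V = 0) (hVR : V * R = V)
    (hc : ∀ x, R * d x = d x * R) (x : M) :
    twist d R V hR hRs h1 h2 hRV hVR hc x = d x * R + V * d x * star V := rfl

/-- If the twisted embedding is conjugate to `d`, the commutant of `d` contains a matrix unit. -/
theorem exists_e (d : M →⋆ₐ[ℂ] Q) (R V : Q) (hR : R * R = R) (hRs : star R = R)
    (h1 : star V * V = R) (h2 : V * star V = 1 - R) (hRV : R * V = 0) (hVR : V * R = V)
    (hc : ∀ x, R * d x = d x * R) (u : Q) (hu : u ∈ unitary Q)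
    (hux : ∀ x, twist d R V hR hRs h1 h2 hRV hVR hc x = u * d x * star u) :
    ∃ e : Q, (∀ x, e * d x = d x * e) ∧ e * e = 0 ∧ star e * e + e * star e = 1 := by
  have hu1 : star u * u = 1 := Unitary.star_mul_self_of_mem hu
  have hu2 : u * star u = 1 := Unitary.mul_star_self_of_mem hu
  have hRV' : star V * R = 0 := by
    have := congrArg star hRV
    rwa [star_mul, hRs, star_zero] at this
  have hVV : V * V = 0 := by
    calc V * V = V * R * V := by rw [hVR]
      _ = 0 := by rw [mul_assoc, hRV, mul_zero]
  have hcomm : ∀ x, V * (d x * R + V * d x * star V) = (d x * R + V * d x * star V) * V := by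
    intro x
    have e1 : V * (d x * R + V * d x * star V) = V * d x * R := by
      calc V * (d x * R + V * d x * star V) = V * d x * R + V * V * d x * star V := by
            rw [mul_add]; simp only [mul_assoc]
        _ = V * d x * R := by rw [hVV, zero_mul, zero_mul, add_zero]
    have e2 : (d x * R + V * d x * star V) * V = V * d x * R := by
      calc (d x * R + V * d x * star V) * V = d x * (R * V) + V * d x * (star V * V) := by
            rw [add_mul]; simp only [mul_assoc]
        _ = V * d x * R := by rw [hRV, mul_zero, zero_add, h1]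
    rw [e1, e2]
  refine ⟨star u * V * u, fun x => ?_, ?_, ?_⟩
  · have e1 : u * d x = (d x * R + V * d x * star V) * u := by
      have := hux x
      rw [twist_apply] at this
      rw [this, mul_assoc (u * d x), hu1, mul_one]
    have e2 : star u * (d x * R + V * d x * star V) = d x * star u := by
      have := hux x
      rw [twist_apply] at this
      rw [this, mul_assoc u, ← mul_assoc (star u), hu1, one_mul]
    calc star u * V * u * d x = star u * V * (u * d x) := by simp only [mul_assoc]
      _ = star u * (V * (d x * R + V * d x * star V)) * u := by rw [e1]; simp only [mul_assoc]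
      _ = (star u * (d x * R + V * d x * star V)) * V * u := by
        rw [hcomm]; simp only [mul_assoc]
      _ = d x * (star u * V * u) := by rw [e2]; simp only [mul_assoc]
  · calc star u * V * u * (star u * V * u) = star u * V * (u * star u) * V * u := by
          simp only [mul_assoc]
      _ = star u * (V * V) * u := by rw [hu2, mul_one]; simp only [mul_assoc]
      _ = 0 := by rw [hVV, mul_zero, zero_mul]
  · have e1 : star (star u * V * u) = star u * star V * u := by
      rw [star_mul, star_mul, star_star, ← mul_assoc]
    rw [e1]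
    calc star u * star V * u * (star u * V * u) + star u * V * u * (star u * star V * u)
        = star u * (star V * (u * star u) * V) * u + star u * (V * (u * star u) * star V) * u := by
          simp only [mul_assoc]
      _ = star u * (R + (1 - R)) * u := by
        rw [hu2, mul_one, mul_one, h1, h2, ← add_mul, ← mul_add]
      _ = 1 := by
        have : R + (1 - R) = 1 := by abel
        rw [this, mul_one, hu1]

end alg

section upow

variable {M : Type u} [CStarAlgebra M] {τ : M →ₗ[ℂ] ℂ}

/-- The trace of the ultrapower. -/
theorem exists_utr' (h : Stmt.IsTracialVN τ) (ω : Ultrafilter ℕ) :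
    ∃ t : UPow h (ω : Filter ℕ) →ₗ[ℂ] ℂ,
      (∀ x : LInf M, Tendsto (fun k => τ (x.seq k)) (ω : Filter ℕ) (𝓝 (t (UPow.mk h ω x)))) ∧
      t 1 = 1 ∧ (∀ a b, t (a * b) = t (b * a)) ∧
      ∀ a, ∃ r : ℝ, 0 ≤ r ∧ t (star a * a) = r := by
  obtain ⟨t, ht, ht1, htc, htp⟩ := exists_utr h ω
  refine ⟨t, ht, ht1, htc, fun a => ?_⟩
  obtain ⟨x, rfl⟩ := UPow.mk_surjective h (ω : Filter ℕ) a
  obtain ⟨r, hr, hr'⟩ := htp (Ultra.mk h ω x)
  refine ⟨r, hr, ?_⟩
  rw [UPow.star_mk]
  exact hr'

/-- Every unital ⋆-homomorphism of a II₁ factor into its ultrapower is trace preserving. -/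
theorem tracePres (h : Stmt.IsII1Factor τ) (ω : Ultrafilter ℕ) (π : M →⋆ₐ[ℂ] UPow (vn h) (ω : Filter ℕ)) :
    TracePres (vn h) (ω : Filter ℕ) π := by
  obtain ⟨t, ht, ht1, htc, htp⟩ := exists_utr' (vn h) ω
  intro x s hs
  have h1 := ht s
  rw [hs] at h1
  have h2 := unique_trace h (t ∘ₗ π.toAlgHom.toLinearMap)
    (fun a b => by
      show t (π (a * b)) = t (π (b * a))
      rw [map_mul π, map_mul π, htc])
    (fun a => by
      show ∃ r : ℝ, 0 ≤ r ∧ t (π (star a * a)) = r
      rw [map_mul, map_star]
      exact htp _) x
  have h3 : t (π x) = t (π 1) * τ x := h2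
  rw [map_one, ht1, one_mul] at h3
  rwa [h3] at h1

/-- A `⋆`-homomorphism of a II₁ factor into itself scales the trace. -/
theorem scale (h : Stmt.IsII1Factor τ) (θ : M →⋆ₙₐ[ℂ] M) (x : M) : τ (θ x) = τ (θ 1) * τ x := by
  have h2 := unique_trace h (τ ∘ₗ (θ : M →ₗ[ℂ] M))
    (fun a b => by
      show τ (θ (a * b)) = τ (θ (b * a))
      rw [map_mul θ, map_mul θ, (vn h).tracial])
    (fun a => by
      show ∃ r : ℝ, 0 ≤ r ∧ τ (θ (star a * a)) = r
      rw [map_mul, map_star]
      obtain ⟨H, _, _, _, A, π, ξ, hr⟩ := (vn h).normal
      have h3 := Complex.le_def.1 (rep_nonneg hr (θ a))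
      refine ⟨(τ (star (θ a) * θ a)).re, h3.1, ?_⟩
      apply Complex.ext
      · rfl
      · exact h3.2.symm) x
  exact h2

end upow

end Pool.Agent.H28.JP
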